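import Pool.Agent.Work.MP_918ecd_co.F.Transfer

/-!
Approximate polychromatic colourings (argument of helper82): `k` disjoint cheap transversals, found
one after the other, each in the complement of the previous ones.
-/

namespace Pool.Agent.Work.MP_918ecd_co.F

open Finset

variable {α : Type*} [DecidableEq α]

/-- If all traces have `N`-fold transversals of relative cost at most `β`, then for every `k` there
are a set `R` of relative cost at most `k β` and a colouring of `R` by `k` colours such that every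
edge with at least `K` points outside `R` has at least `N` points of each of the `k` colours. -/
theorem approx_of_cheap (V : Finset α) (E : Finset (Finset α)) (N K : ℕ) (β : ℝ) (hβ : 0 ≤ β)
    (u : α → ℝ) (hu : ∀ v, 0 ≤ u v)
    (h : ∀ X ⊆ V, ∃ T ⊆ X, ∑ v ∈ T, u v ≤ β * ∑ v ∈ X, u v ∧
      ∀ e ∈ E, K ≤ (e ∩ X).card → N ≤ (e ∩ T).card) (k : ℕ) :
    ∀ X ⊆ V, ∃ c : α → ℕ, ∃ R ⊆ X, ∑ v ∈ R, u v ≤ k * β * ∑ v ∈ X, u v ∧
      ∀ e ∈ E, K ≤ ((e ∩ X) \ R).card → ∀ i < k, N ≤ ((e ∩ R).filter (fun v => c v = i)).card := by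
  classical
  induction k with
  | zero =>
    intro X _
    refine ⟨fun _ => 0, ∅, empty_subset _, by simp, fun e _ _ i hi => absurd hi (by omega)⟩
  | succ k ih =>
    intro X hX
    obtain ⟨T, hT, hcost, hhit⟩ := h X hX
    obtain ⟨c, R, hR, hRcost, hRhit⟩ := ih (X \ T) (sdiff_subset.trans hX)
    refine ⟨fun v => if v ∈ T then k else c v, T ∪ R,
      union_subset hT (hR.trans sdiff_subset), ?_, ?_⟩
    · have hdisj : Disjoint T R := by
        rw [disjoint_left]
        intro v hvT hvR
        exact (mem_sdiff.1 (hR hvR)).2 hvT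
      have h1 : ∑ v ∈ X \ T, u v ≤ ∑ v ∈ X, u v :=
        sum_le_sum_of_subset_of_nonneg sdiff_subset (fun v _ _ => hu v)
      have h2 : (k : ℝ) * β * ∑ v ∈ X \ T, u v ≤ k * β * ∑ v ∈ X, u v :=
        mul_le_mul_of_nonneg_left h1 (mul_nonneg (Nat.cast_nonneg _) hβ)
      rw [sum_union hdisj]
      push_cast
      linarith
    · intro e he hcard i hi
      have hsub : (e ∩ X) \ (T ∪ R) = (e ∩ (X \ T)) \ R := by
        ext v
        simp only [mem_sdiff, mem_inter, mem_union]
        tauto
      by_cases hik : i = k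
      · subst hik
        have h1 : N ≤ (e ∩ T).card := by
          refine hhit e he (hcard.trans (card_le_card sdiff_subset))
        refine h1.trans (card_le_card ?_)
        intro v hv
        rw [mem_inter] at hv
        simp [hv.1, hv.2]
      · have h1 := hRhit e he (hsub ▸ hcard) i (by omega)
        refine h1.trans (card_le_card ?_)
        intro v hv
        rw [mem_filter, mem_inter] at hv
        have hvT : v ∉ T := (mem_sdiff.1 (hR hv.1.2)).2
        rw [mem_filter, mem_inter, mem_union]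
        refine ⟨⟨hv.1.1, Or.inr hv.1.2⟩, ?_⟩
        beta_reduce
        rw [if_neg hvT]
        exact hv.2

theorem approx_of_good {M : ℕ} (hM : 1 ≤ M) {V : Finset α} {E : Finset (Finset α)}
    (hE : ∀ e ∈ E, e ⊆ V) (hg : Good (M - 1) V E) (N : ℕ) (hN : 1 ≤ N) (j k : ℕ) (hk : 1 ≤ k)
    (u : α → ℝ) (hu : ∀ v, 0 ≤ u v) :
    ∃ c : α → Fin k, ∃ R ⊆ V, ∑ v ∈ R, u v ≤ k * (5 / 6) ^ j * ∑ v ∈ V, u v ∧
      ∀ e ∈ E, (8193 * M) ^ j * N ≤ (e \ R).card →
        ∀ i, N ≤ (e.filter (fun v => c v = i)).card := by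
  classical
  obtain ⟨c, R, hR, hcost, hhit⟩ := approx_of_cheap V E N ((8193 * M) ^ j * N) ((5 / 6) ^ j)
    (by positivity) u hu (fun X hX => cheap_of_good hM hg N hN j X hX u hu) k V
    (Subset.refl _)
  refine ⟨fun v => if h : c v < k then ⟨c v, h⟩ else ⟨0, hk⟩, R, hR, hcost, ?_⟩
  intro e he hcard i
  have h1 := hhit e he (by rwa [inter_eq_left.2 (hE e he)]) i.1 i.2
  refine h1.trans (card_le_card ?_)
  intro v hv
  rw [mem_filter, mem_inter] at hv
  rw [mem_filter]
  refine ⟨hv.1.1, ?_⟩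
  have h2 : c v < k := by
    rw [hv.2]
    exact i.2
  beta_reduce
  rw [dif_pos h2]
  exact Fin.ext hv.2

end Pool.Agent.Work.MP_918ecd_co.F
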