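import Pool.Agent.Work.MP_918ecd_co.F.Sub

/-!
Module Avg (M).  The average inequality.
Induction on `l` generalizing `a s`.
`[]`: both sides are `0` (`Agr` is vacuous, `Fn = 1`).
`v :: l`, `L = l.toFinset`, `v ∉ L`: `Finset.sum_powerset_insert` gives
`∑_{C ⊆ insert v L} g C = ∑_{C ⊆ L} (g C + g (insert v C))`.  For `C ⊆ L` put
 `P0 = Fn u (Agr ψ C l) l (u v) s`,  `P1 = Fn u (Agr ψ C l) l (u v) (insert v s)`,
 `Pm = Fn u (Agr ψ C (v :: l)) l (u v) (insert v s)`,
 `Pp = Fn u (Agr ψ (insert v C) (v :: l)) l (u v) (insert v s)`.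
By `Fn_congr` (sets `Z ⊆ s ∪ L` do not contain `v`; for `w ∈ l`, `w ∈ insert v C ↔ w ∈ C`) the
first summand of `Fn u (Agr ψ C (v :: l)) (v :: l) a s` and of the one with `insert v C` is `P0`.
`P0, P1 > 0` by `Fn_pos` (`Agr ψ C l s` and `Agr ψ C l (insert v s)` are vacuous since the elements
of `l` are not in `insert v s`).  `P1 ≤ Pm + Pp` by `Fn_mono`/`Fn_congr` and `Fn_union`
(`Agr ψ C l Z` implies `Agr ψ C (v :: l) Z` if `v ∉ ψ Z` (as `v ∉ C`), and
`Agr ψ (insert v C) (v :: l) Z` if `v ∈ ψ Z`).  Hence
 `(P0 + Pm) (P0 + Pp) ≥ P0 (P0 + Pm + Pp) ≥ P0 (P0 + P1)` and `P0 + P1 ≥ 2 √(P0 P1)`, so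
 `log (P0 + Pm) + log (P0 + Pp) ≥ log 2 + (3/2) log P0 + (1/2) log P1`.
Since `a * log (x ^ (u v / a)) = u v * log x`, summing over `C ⊆ L` and using the induction
hypothesis twice (with `a := u v` and `s`, `insert v s`):
 `a ∑ (g C + g (insert v C)) ≥ 2^|l| u v log 2 + (3/2 + 1/2) 2^|l| (log 2 / 2) (l.map u).sum`,
which is the claim for `v :: l`.
-/

set_option autoImplicit false

namespace Pool.Agent.Work.MP_918ecd_co.F

open Finset

variable {α : Type*} [DecidableEq α]

private lemma avg_log {p q m n : ℝ} (hp : 0 < p) (hq : 0 < q) (hm : 0 ≤ m) (hn : 0 ≤ n)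
    (h : q ≤ m + n) :
    Real.log 2 + 3 / 2 * Real.log p + 1 / 2 * Real.log q
      ≤ Real.log (p + m) + Real.log (p + n) := by
  have h1 : 0 < p + m := by linarith
  have h2 : 0 < p + n := by linarith
  rw [← Real.log_mul h1.ne' h2.ne']
  have h3 : p * (p + q) ≤ (p + m) * (p + n) := by nlinarith [mul_nonneg hm hn]
  have h4 : Real.log (p * (p + q)) ≤ Real.log ((p + m) * (p + n)) :=
    Real.log_le_log (by positivity) h3
  have h5 : Real.log (p * (p + q)) = Real.log p + Real.log (p + q) :=
    Real.log_mul hp.ne' (by positivity)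
  have h6 : (4 * (p * q)) ≤ (p + q) ^ 2 := by nlinarith [sq_nonneg (p - q)]
  have h7 : Real.log (4 * (p * q)) ≤ Real.log ((p + q) ^ 2) :=
    Real.log_le_log (by positivity) h6
  have h8 : Real.log ((p + q) ^ 2) = 2 * Real.log (p + q) := by
    rw [Real.log_pow]; norm_num
  have h9 : Real.log (4 * (p * q)) = 2 * Real.log 2 + (Real.log p + Real.log q) := by
    rw [Real.log_mul (by norm_num) (by positivity), Real.log_mul hp.ne' hq.ne']
    have : (4 : ℝ) = 2 ^ 2 := by norm_num
    rw [this, Real.log_pow]; norm_num
  linarith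

theorem avg (ψ : Finset α → Finset α) (u : α → ℝ) (l : List α) (hnd : l.Nodup)
    (hl : l.Pairwise (fun x y => u y ≤ u x)) (hpos : ∀ v ∈ l, 0 < u v)
    (a : ℝ) (ha0 : 0 < a) (ha : ∀ v ∈ l, u v ≤ a) (s : Finset α) (hs : ∀ v ∈ l, v ∉ s) :
    (2 : ℝ) ^ l.length * (Real.log 2 / 2 * (l.map u).sum)
      ≤ a * ∑ C ∈ l.toFinset.powerset, Real.log (Fn u (Agr ψ C l) l a s) := by
  induction l generalizing a s with
  | nil =>
    have h : Fn u (Agr ψ ∅ []) [] a s = 1 := Fn_nil_of u a (by intro v hv; cases hv)
    simp [h]
  | cons v t ih =>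
    have hnd' := List.nodup_cons.1 hnd
    have hl' := List.pairwise_cons.1 hl
    have hvt : v ∉ t := hnd'.1
    have hvL : v ∉ t.toFinset := by simpa using hvt
    have huv : 0 < u v := hpos v (List.mem_cons_self)
    have hpos' : ∀ w ∈ t, 0 < u w := fun w hw => hpos w (List.mem_cons_of_mem _ hw)
    have hvs : v ∉ s := hs v (List.mem_cons_self)
    have hne : ∀ w ∈ t, w ≠ v := fun w hw h => hvt (h ▸ hw)
    have hs0 : ∀ w ∈ t, w ∉ s := fun w hw => hs w (List.mem_cons_of_mem _ hw)
    have hs1 : ∀ w ∈ t, w ∉ insert v s := by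
      intro w hw h
      rcases Finset.mem_insert.1 h with h | h
      · exact hne w hw h
      · exact hs0 w hw h
    have ih0 := ih hnd'.2 hl'.2 hpos' (u v) huv hl'.1 s hs0
    have ih1 := ih hnd'.2 hl'.2 hpos' (u v) huv hl'.1 (insert v s) hs1
    have hcard : (t.toFinset.powerset.card : ℝ) = 2 ^ t.length := by
      rw [Finset.card_powerset, List.toFinset_card_of_nodup hnd'.2]; push_cast; rfl
    have hterm : ∀ C ∈ t.toFinset.powerset,
        u v * (Real.log 2 + 3 / 2 * Real.log (Fn u (Agr ψ C t) t (u v) s)
          + 1 / 2 * Real.log (Fn u (Agr ψ C t) t (u v) (insert v s)))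
        ≤ a * (Real.log (Fn u (Agr ψ C (v :: t)) (v :: t) a s)
          + Real.log (Fn u (Agr ψ (insert v C) (v :: t)) (v :: t) a s)) := by
      intro C hC
      have hCL : C ⊆ t.toFinset := Finset.mem_powerset.1 hC
      have hvC : v ∉ C := fun h => hvL (hCL h)
      have e0 : Fn u (Agr ψ C (v :: t)) t (u v) s = Fn u (Agr ψ C t) t (u v) s := by
        apply Fn_congr
        intro Z _ hZ2
        have hvZ : v ∉ Z := by
          intro h
          rcases Finset.mem_union.1 (hZ2 h) with h | h
          · exact hvs h
          · exact hvL h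
        constructor
        · intro h w hw
          exact h w (List.mem_cons_of_mem _ hw)
        · intro h w hw hwZ
          rcases List.mem_cons.1 hw with rfl | hw
          · exact absurd hwZ hvZ
          · exact h w hw hwZ
      have e1 : Fn u (Agr ψ (insert v C) (v :: t)) t (u v) s = Fn u (Agr ψ C t) t (u v) s := by
        apply Fn_congr
        intro Z _ hZ2
        have hvZ : v ∉ Z := by
          intro h
          rcases Finset.mem_union.1 (hZ2 h) with h | h
          · exact hvs h
          · exact hvL h
        constructor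
        · intro h w hw hwZ
          have := h w (List.mem_cons_of_mem _ hw) hwZ
          rw [this, Finset.mem_insert]
          constructor
          · rintro (h' | h')
            · exact absurd h' (hne w hw)
            · exact h'
          · exact fun h' => Or.inr h'
        · intro h w hw hwZ
          rcases List.mem_cons.1 hw with rfl | hw
          · exact absurd hwZ hvZ
          · rw [h w hw hwZ, Finset.mem_insert]
            constructor
            · exact fun h' => Or.inr h'
            · rintro (h' | h')
              · exact absurd h' (hne w hw)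
              · exact h'
      have hP0 : 0 < Fn u (Agr ψ C t) t (u v) s := by
        apply Fn_pos
        intro w hw hwZ
        exact absurd hwZ (hs0 w hw)
      have hP1 : 0 < Fn u (Agr ψ C t) t (u v) (insert v s) := by
        apply Fn_pos
        intro w hw hwZ
        exact absurd hwZ (hs1 w hw)
      have hPm := Fn_nonneg u (Agr ψ C (v :: t)) t (u v) (insert v s)
      have hPp := Fn_nonneg u (Agr ψ (insert v C) (v :: t)) t (u v) (insert v s)
      have hle : Fn u (Agr ψ C t) t (u v) (insert v s)
          ≤ Fn u (Agr ψ C (v :: t)) t (u v) (insert v s)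
            + Fn u (Agr ψ (insert v C) (v :: t)) t (u v) (insert v s) := by
        refine le_trans ?_ (Fn_union u (Agr ψ C (v :: t)) (Agr ψ (insert v C) (v :: t)) t hl'.2
          hpos' (u v) hl'.1 (insert v s))
        refine Fn_mono u t (fun w hw => (hpos' w hw).le) huv.le (insert v s) ?_
        intro Z hZ
        by_cases hvZ : v ∈ ψ Z
        · right
          intro w hw hwZ
          rcases List.mem_cons.1 hw with rfl | hw
          · simp [hvZ]
          · rw [hZ w hw hwZ, Finset.mem_insert]
            constructor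
            · exact fun h' => Or.inr h'
            · rintro (h' | h')
              · exact absurd h' (hne w hw)
              · exact h'
        · left
          intro w hw hwZ
          rcases List.mem_cons.1 hw with rfl | hw
          · constructor
            · intro h; exact absurd h hvZ
            · intro h; exact absurd h hvC
          · exact hZ w hw hwZ
      have key := avg_log hP0 hP1 hPm hPp hle
      rw [Fn_cons, Fn_cons, e0, e1, Real.log_rpow (by linarith), Real.log_rpow (by linarith)]
      have ha' : a ≠ 0 := ha0.ne'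
      have : a * (u v / a * Real.log (Fn u (Agr ψ C t) t (u v) s
            + Fn u (Agr ψ C (v :: t)) t (u v) (insert v s))
          + u v / a * Real.log (Fn u (Agr ψ C t) t (u v) s
            + Fn u (Agr ψ (insert v C) (v :: t)) t (u v) (insert v s)))
          = u v * (Real.log (Fn u (Agr ψ C t) t (u v) s
            + Fn u (Agr ψ C (v :: t)) t (u v) (insert v s))
          + Real.log (Fn u (Agr ψ C t) t (u v) s
            + Fn u (Agr ψ (insert v C) (v :: t)) t (u v) (insert v s))) := by
        field_simp
      rw [this]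
      exact mul_le_mul_of_nonneg_left key huv.le
    have hsum := Finset.sum_le_sum hterm
    rw [← Finset.mul_sum, ← Finset.mul_sum, Finset.sum_add_distrib, Finset.sum_add_distrib,
      Finset.sum_const, nsmul_eq_mul, ← Finset.mul_sum, ← Finset.mul_sum, hcard,
      Finset.sum_add_distrib] at hsum
    rw [List.toFinset_cons, Finset.sum_powerset_insert hvL]
    refine le_trans ?_ hsum
    rw [List.length_cons, List.map_cons, List.sum_cons, pow_succ]
    nlinarith [ih0, ih1]

end Pool.Agent.Work.MP_918ecd_co.F
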