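import Pool.Agent.Work.MP_918ecd_co.F.Defs

/-!
Module Basic (S).  Elementary facts on `Fn`; all by induction on `l` (generalizing `a s`).
* `Fn_nonneg`: `Real.rpow_nonneg`.
* `Fn_pos`: for `v :: l` the first summand is positive by induction, the second is `≥ 0`.
* `Fn_congr`: the recursion only looks at sets `Z` with `s ⊆ Z ⊆ s ∪ l`.
* `Fn_mono`: `Real.rpow_le_rpow` with exponent `u v / a ≥ 0`.
-/

namespace Pool.Agent.Work.MP_918ecd_co.F

open Finset

variable {α : Type*} [DecidableEq α]

lemma Fn_nil_of (u : α → ℝ) {A : Finset α → Prop} {s : Finset α} (a : ℝ) (h : A s) :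
    Fn u A [] a s = 1 := by
  simp [Fn, h]

lemma Fn_nil_of_not (u : α → ℝ) {A : Finset α → Prop} {s : Finset α} (a : ℝ) (h : ¬ A s) :
    Fn u A [] a s = 0 := by
  simp [Fn, h]

lemma Fn_cons (u : α → ℝ) (A : Finset α → Prop) (v : α) (l : List α) (a : ℝ) (s : Finset α) :
    Fn u A (v :: l) a s = (Fn u A l (u v) s + Fn u A l (u v) (insert v s)) ^ (u v / a) := rfl

lemma Fn_nonneg (u : α → ℝ) (A : Finset α → Prop) (l : List α) (a : ℝ) (s : Finset α) :
    0 ≤ Fn u A l a s := by
  induction l generalizing a s with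
  | nil =>
    by_cases h : A s
    · rw [Fn_nil_of u a h]; exact zero_le_one
    · rw [Fn_nil_of_not u a h]
  | cons v l ih =>
    rw [Fn_cons]
    exact Real.rpow_nonneg (add_nonneg (ih _ _) (ih _ _)) _

lemma Fn_pos (u : α → ℝ) {A : Finset α → Prop} (l : List α) (a : ℝ) {s : Finset α} (h : A s) :
    0 < Fn u A l a s := by
  induction l generalizing a with
  | nil => rw [Fn_nil_of u a h]; exact zero_lt_one
  | cons v l ih =>
    rw [Fn_cons]
    exact Real.rpow_pos_of_pos (add_pos_of_pos_of_nonneg (ih _) (Fn_nonneg u A l _ _)) _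

lemma Fn_congr (u : α → ℝ) {A B : Finset α → Prop} (l : List α) (a : ℝ) (s : Finset α)
    (h : ∀ Z, s ⊆ Z → Z ⊆ s ∪ l.toFinset → (A Z ↔ B Z)) :
    Fn u A l a s = Fn u B l a s := by
  induction l generalizing a s with
  | nil =>
    have hs := h s (Finset.Subset.refl _) Finset.subset_union_left
    by_cases hA : A s
    · rw [Fn_nil_of u a hA, Fn_nil_of u a (hs.1 hA)]
    · rw [Fn_nil_of_not u a hA, Fn_nil_of_not u a (fun hB => hA (hs.2 hB))]
  | cons v l ih =>
    rw [Fn_cons, Fn_cons, ih, ih]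
    · intro Z h1 h2
      refine h Z ((Finset.subset_insert v s).trans h1) (h2.trans ?_)
      intro x hx
      simp only [Finset.mem_union, Finset.mem_insert, List.toFinset_cons] at hx ⊢
      tauto
    · intro Z h1 h2
      refine h Z h1 (h2.trans ?_)
      intro x hx
      simp only [Finset.mem_union, Finset.mem_insert, List.toFinset_cons] at hx ⊢
      tauto

lemma Fn_mono (u : α → ℝ) {A B : Finset α → Prop} (l : List α) (hu : ∀ v ∈ l, 0 ≤ u v)
    {a : ℝ} (ha : 0 ≤ a) (s : Finset α) (h : ∀ Z, A Z → B Z) :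
    Fn u A l a s ≤ Fn u B l a s := by
  induction l generalizing a s with
  | nil =>
    by_cases hA : A s
    · rw [Fn_nil_of u a hA, Fn_nil_of u a (h s hA)]
    · rw [Fn_nil_of_not u a hA]
      exact Fn_nonneg u B [] a s
  | cons v l ih =>
    have hv : 0 ≤ u v := hu v (by simp)
    have hl : ∀ v ∈ l, 0 ≤ u v := fun w hw => hu w (by simp [hw])
    rw [Fn_cons, Fn_cons]
    exact Real.rpow_le_rpow (add_nonneg (Fn_nonneg u A l _ _) (Fn_nonneg u A l _ _))
      (add_le_add (ih hl hv s) (ih hl hv (insert v s))) (div_nonneg hv ha)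

end Pool.Agent.Work.MP_918ecd_co.F
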