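import Mathlib

/-!
Module Cnt (S, Mathlib only).  Two counting lemmas.
* `sum_inter`: every subset of `L` is `C ∩ L` for exactly `2^(|α| - |L|)` sets `C`
  (e.g. `Finset.sum_fiberwise_of_maps_to`, the fibre of `D ⊆ L` is the image of the powerset of
  `univ \ L` under `D ∪ ·`; or induction on the complement of `L`).
* `sum_collide`: for `v ∈ W` the number of `f : α → Fin r` with `f d = f v` for some `d ∈ D` is at
  most `∑_{d ∈ D} #{f : f d = f v}`, and `#{f : f d = f v} = r^(|α|-1)` for `d ≠ v`, `r^|α|` for
  `d = v`.  So the total is at most `r^|α| (|D| + |W| |D| / r)`.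
-/

namespace Pool.Agent.Work.MP_918ecd_co.F

open Finset

variable {α : Type*} [DecidableEq α] [Fintype α]

private lemma card_fibre (L D : Finset α) (hD : D ⊆ L) :
    ((univ : Finset (Finset α)).filter (fun C => C ∩ L = D)).card
      = 2 ^ (Fintype.card α - L.card) := by
  have h : ((univ : Finset (Finset α)).filter (fun C => C ∩ L = D)).card
      = (Lᶜ.powerset).card := by
    refine Finset.card_nbij' (fun C => C \ L) (fun E => D ∪ E) ?_ ?_ ?_ ?_
    · intro C _
      simp only [coe_powerset, Set.mem_preimage, Set.mem_powerset_iff, coe_subset]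
      intro x hx
      simp only [mem_sdiff] at hx
      simpa using hx.2
    · intro E hE
      simp only [coe_powerset, Set.mem_preimage, Set.mem_powerset_iff, coe_subset] at hE
      simp only [coe_filter, mem_univ, true_and, Set.mem_setOf_eq]
      ext x
      simp only [mem_inter, mem_union]
      constructor
      · rintro ⟨h1 | h1, h2⟩
        · exact h1
        · exact absurd h2 (by simpa using hE h1)
      · intro h1
        exact ⟨Or.inl h1, hD h1⟩
    · intro C hC
      simp only [coe_filter, mem_univ, true_and, Set.mem_setOf_eq] at hC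
      rw [← hC]
      ext x
      simp only [mem_union, mem_inter, mem_sdiff]
      tauto
    · intro E hE
      simp only [coe_powerset, Set.mem_preimage, Set.mem_powerset_iff, coe_subset] at hE
      ext x
      simp only [mem_union, mem_sdiff]
      constructor
      · rintro ⟨h1 | h1, h2⟩
        · exact absurd (hD h1) h2
        · exact h1
      · intro h1
        exact ⟨Or.inr h1, by simpa using hE h1⟩
  rw [h, card_powerset, card_compl]

lemma sum_inter (L : Finset α) (g : Finset α → ℝ) :
    (2 : ℝ) ^ L.card * ∑ C : Finset α, g (C ∩ L)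
      = (2 : ℝ) ^ Fintype.card α * ∑ C ∈ L.powerset, g C := by
  have h1 : ∑ C : Finset α, g (C ∩ L)
      = ∑ D ∈ L.powerset, ∑ C ∈ (univ : Finset (Finset α)).filter (fun C => C ∩ L = D),
          g (C ∩ L) := by
    rw [Finset.sum_fiberwise_of_maps_to]
    intro C _
    simp
  have h2 : ∀ D ∈ L.powerset,
      ∑ C ∈ (univ : Finset (Finset α)).filter (fun C => C ∩ L = D), g (C ∩ L)
        = (2 : ℝ) ^ (Fintype.card α - L.card) * g D := by
    intro D hD
    rw [mem_powerset] at hD
    rw [Finset.sum_congr rfl (g := fun _ => g D)]
    · rw [sum_const, card_fibre L D hD, nsmul_eq_mul]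
      push_cast
      ring
    · intro C hC
      rw [mem_filter] at hC
      rw [hC.2]
  rw [h1, sum_congr rfl h2, ← mul_sum, ← mul_assoc, ← pow_add,
    Nat.add_sub_cancel' (card_le_univ L)]

private lemma card_eq_ne (r : ℕ) (d v : α) (h : d ≠ v) :
    ((univ : Finset (α → Fin r)).filter (fun f => f d = f v)).card * r
      = r ^ Fintype.card α := by
  have h1 : (((univ : Finset (α → Fin r)).filter (fun f => f d = f v)) ×ˢ
      (univ : Finset (Fin r))).card = (univ : Finset (α → Fin r)).card := by
    refine Finset.card_nbij' (fun p => Function.update p.1 v p.2)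
      (fun g => (Function.update g v (g d), g v)) ?_ ?_ ?_ ?_
    · intro p _
      simp
    · intro g _
      simp [Function.update_of_ne h]
    · rintro ⟨f, c⟩ hf
      simp only [coe_product, coe_filter, mem_univ, true_and, coe_univ, Set.mem_prod,
        Set.mem_setOf_eq, Set.mem_univ, and_true] at hf
      simp only [Function.update_idem, Function.update_self, Prod.mk.injEq, and_true]
      rw [Function.update_of_ne h, hf, Function.update_eq_self]
    · intro g _
      simp
  rw [card_product, card_univ, card_univ, Fintype.card_fin, Fintype.card_fun,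
    Fintype.card_fin] at h1
  exact h1

lemma sum_collide (r : ℕ) (hr : 1 ≤ r) (W D : Finset α) :
    (r : ℝ) * ∑ f : α → Fin r, ((W.filter (fun v => ∃ d ∈ D, f d = f v)).card : ℝ)
      ≤ (r : ℝ) ^ Fintype.card α * (r * D.card + W.card * D.card) := by
  have key : r * ∑ f : α → Fin r, (W.filter (fun v => ∃ d ∈ D, f d = f v)).card
      ≤ r ^ Fintype.card α * (r * D.card + W.card * D.card) := by
    have h1 : ∀ f : α → Fin r, (W.filter (fun v => ∃ d ∈ D, f d = f v)).card
        ≤ ∑ v ∈ W, ∑ d ∈ D, (if f d = f v then 1 else 0) := by
      intro f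
      rw [card_filter]
      refine sum_le_sum fun v _ => ?_
      split_ifs with hv
      · obtain ⟨d, hd, hdv⟩ := hv
        calc 1 = (if f d = f v then 1 else 0) := by simp [hdv]
          _ ≤ ∑ d ∈ D, (if f d = f v then 1 else 0) :=
            single_le_sum (f := fun d => if f d = f v then 1 else 0) (fun _ _ => Nat.zero_le _) hd
      · exact Nat.zero_le _
    have h2 : ∑ f : α → Fin r, (W.filter (fun v => ∃ d ∈ D, f d = f v)).card
        ≤ ∑ v ∈ W, ∑ d ∈ D, ((univ : Finset (α → Fin r)).filter (fun f => f d = f v)).card := by
      calc ∑ f : α → Fin r, (W.filter (fun v => ∃ d ∈ D, f d = f v)).card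
          ≤ ∑ f : α → Fin r, ∑ v ∈ W, ∑ d ∈ D, (if f d = f v then 1 else 0) :=
            sum_le_sum fun f _ => h1 f
        _ = ∑ v ∈ W, ∑ d ∈ D, ∑ f : α → Fin r, (if f d = f v then 1 else 0) := by
            rw [sum_comm]
            exact sum_congr rfl fun v _ => sum_comm
        _ = _ := by
            refine sum_congr rfl fun v _ => sum_congr rfl fun d _ => ?_
            rw [card_filter]
    have h3 : ∀ v d : α, r * ((univ : Finset (α → Fin r)).filter (fun f => f d = f v)).card
        ≤ r ^ Fintype.card α * (1 + if d = v then r else 0) := by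
      intro v d
      split_ifs with hdv
      · subst hdv
        simp only [filter_true, card_univ, Fintype.card_fun, Fintype.card_fin]
        nlinarith [Nat.zero_le (r ^ Fintype.card α)]
      · have := card_eq_ne r d v hdv
        nlinarith
    calc r * ∑ f : α → Fin r, (W.filter (fun v => ∃ d ∈ D, f d = f v)).card
        ≤ r * ∑ v ∈ W, ∑ d ∈ D,
            ((univ : Finset (α → Fin r)).filter (fun f => f d = f v)).card :=
          Nat.mul_le_mul_left _ h2
      _ = ∑ v ∈ W, ∑ d ∈ D,
            r * ((univ : Finset (α → Fin r)).filter (fun f => f d = f v)).card := by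
          rw [mul_sum]
          exact sum_congr rfl fun v _ => mul_sum _ _ _
      _ ≤ ∑ v ∈ W, ∑ d ∈ D, r ^ Fintype.card α * (1 + if d = v then r else 0) :=
          sum_le_sum fun v _ => sum_le_sum fun d _ => h3 v d
      _ = r ^ Fintype.card α * (W.card * D.card + ∑ v ∈ W, ∑ d ∈ D, if d = v then r else 0) := by
          simp only [mul_add, mul_one, sum_add_distrib, sum_const, smul_eq_mul, mul_sum]
          ring
      _ ≤ r ^ Fintype.card α * (r * D.card + W.card * D.card) := by
          refine Nat.mul_le_mul_left _ ?_
          have h4 : ∑ v ∈ W, ∑ d ∈ D, (if d = v then r else 0) ≤ r * D.card := by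
            rw [sum_comm]
            calc ∑ d ∈ D, ∑ v ∈ W, (if d = v then r else 0) ≤ ∑ d ∈ D, r := by
                  refine sum_le_sum fun d _ => ?_
                  rw [sum_ite_eq]
                  split_ifs <;> simp
              _ = r * D.card := by rw [sum_const, smul_eq_mul, mul_comm]
          omega
  exact_mod_cast key

end Pool.Agent.Work.MP_918ecd_co.F
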