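import Mathlib

/-!
# MP_918ecd_co: fractional polychromatic colourings.  Definitions.

`Fn u A l a s` is the nested soft-max functional (hierarchical entropy) of the family `A` of
vertex sets: the vertices of the list `l` (in decreasing order of their costs `u`) are decided one
after the other, `s` is the set chosen so far, and the temperature at the vertex `v` is `u v`;
`a * log (Fn u A l a s)` does not depend on the temperature `a`.
-/

namespace Pool.Agent.Work.MP_918ecd_co.F

open Finset

variable {α : Type*} [DecidableEq α]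

/-- Nested soft-max functional. -/
noncomputable def Fn (u : α → ℝ) (A : Finset α → Prop) : List α → ℝ → Finset α → ℝ
  | [], _, s => by classical exact if A s then 1 else 0
  | v :: l, a, s => (Fn u A l (u v) s + Fn u A l (u v) (insert v s)) ^ (u v / a)

/-- The sets `Z` on which the colouring `ψ Z` (plus class of a colouring of `Z`) agrees with the
colouring with plus class `C` at all points of the list `l`. -/
def Agr (ψ : Finset α → Finset α) (C : Finset α) (l : List α) (Z : Finset α) : Prop :=
  ∀ v ∈ l, v ∈ Z → (v ∈ ψ Z ↔ v ∈ C)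

/-- `ψ` is a rule of good colourings: every edge with at least `M` points in `Z` has points of both
colours in `Z`. -/
def Rule (M : ℕ) (E : Finset (Finset α)) (ψ : Finset α → Finset α) : Prop :=
  ∀ Z, ∀ e ∈ E, M ≤ (e ∩ Z).card → (∃ v ∈ e ∩ Z, v ∈ ψ Z) ∧ (∃ v ∈ e ∩ Z, v ∉ ψ Z)

/-- In every trace `X` and for every cost `u ≥ 0` some subset of `X` of cost at most `β u(X)` meets
every edge with at least `K` points in `X` in at least `N` points. -/
def Cheap (E : Finset (Finset α)) (N K : ℕ) (β : ℝ) : Prop :=
  ∀ X : Finset α, ∀ u : α → ℝ, (∀ v, 0 ≤ u v) →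
    ∃ T ⊆ X, ∑ v ∈ T, u v ≤ β * ∑ v ∈ X, u v ∧ ∀ e ∈ E, K ≤ (e ∩ X).card → N ≤ (e ∩ T).card

end Pool.Agent.Work.MP_918ecd_co.F
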