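import Mathlib

/-!
Module LP (M, Mathlib only).  LP duality (minimax) for a finite family `S` of sets: if for every
cost `u ≥ 0` some `T ∈ S` costs at most `β u(α)`, then some probability distribution on `S` has
`P(v ∈ T) ≤ β` for all `v`.
Proof by separation: `K = convexHull ℝ` of the finite set of indicator vectors `1_T`, `T ∈ S`
(compact, convex, nonempty: take `u = 0`), `Q = {x | ∀ v, x v ≤ β}` closed convex.  If
`K ∩ Q ≠ ∅` we are done (`Finset.mem_convexHull`/`convexHull_basis`...).  Otherwise
`geometric_hahn_banach_compact_closed` gives a linear `L : (α → ℝ) → ℝ` and `s < t` with `L < s` on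
`K`, `t < L` on `Q`; with `L x = -∑ u v x v` (sign chosen such that `∑ u v x v > s'` on `K` and
`< t'` on `Q`, `t' < s'`): `u v ≥ 0` because `Q` contains `β - n e_v` for all `n ≥ 0` and the
functional is bounded above on `Q`; the point `x ≡ β ∈ Q` gives `β u(α) < t' < s' < ∑_{v ∈ T} u v`
for all `T ∈ S`: contradiction.  (Or use `Pool.Agent.Work.MP_8ddad6_co.farkas`, or Mathlib's
`Sion`.)
-/

namespace Pool.Agent.Work.MP_918ecd_co.F

open Finset

variable {α : Type*} [DecidableEq α] [Fintype α]

/-- indicator vector -/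
private noncomputable def lpInd (T : Finset α) : α → ℝ := fun v => if v ∈ T then 1 else 0

private lemma lpInd_inj : Function.Injective (lpInd : Finset α → α → ℝ) := by
  intro T T' h
  ext v
  have := congrFun h v
  simp only [lpInd] at this
  by_cases h1 : v ∈ T <;> by_cases h2 : v ∈ T' <;> simp_all

theorem exists_dist (S : Finset (Finset α)) (β : ℝ)
    (h : ∀ u : α → ℝ, (∀ v, 0 ≤ u v) → ∃ T ∈ S, ∑ v ∈ T, u v ≤ β * ∑ v, u v) :
    ∃ p : Finset α → ℝ, (∀ T, 0 ≤ p T) ∧ ∑ T ∈ S, p T = 1 ∧
      ∀ v, ∑ T ∈ S.filter (fun T => v ∈ T), p T ≤ β := by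
  set P : Finset (α → ℝ) := S.image lpInd with hP
  by_cases hd : Disjoint (convexHull ℝ (P : Set (α → ℝ))) {x : α → ℝ | ∀ v, x v ≤ β}
  · exfalso
    have hQc : Convex ℝ {x : α → ℝ | ∀ v, x v ≤ β} := by
      intro x hx y hy a b ha hb hab v
      simp only [Pi.add_apply, Pi.smul_apply, smul_eq_mul]
      calc a * x v + b * y v ≤ a * β + b * β :=
            add_le_add (mul_le_mul_of_nonneg_left (hx v) ha) (mul_le_mul_of_nonneg_left (hy v) hb)
        _ = β := by rw [← add_mul, hab, one_mul]
    have hQ : IsClosed {x : α → ℝ | ∀ v, x v ≤ β} := by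
      simp only [Set.setOf_forall]
      exact isClosed_iInter fun v => isClosed_le (continuous_apply v) continuous_const
    obtain ⟨f, a, b, h1, hab, h2⟩ := geometric_hahn_banach_compact_closed (convex_convexHull ℝ _)
      (P.finite_toSet.isCompact_convexHull (𝕜 := ℝ)) hQc hQ hd
    set w : α → ℝ := fun v => -f (Pi.single v 1) with hw
    have hf : ∀ x : α → ℝ, f x = -∑ v, w v * x v := by
      intro x
      have e : x = ∑ v, x v • (Pi.single v (1 : ℝ) : α → ℝ) := by
        funext v
        simp [Finset.sum_apply, Pi.single_apply]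
      conv_lhs => rw [e]
      rw [map_sum, ← Finset.sum_neg_distrib]
      refine Finset.sum_congr rfl fun v _ => ?_
      rw [map_smul, smul_eq_mul, hw]
      ring
    have hw0 : ∀ v, 0 ≤ w v := by
      intro v
      by_contra hneg
      push Not at hneg
      obtain ⟨n, hn⟩ := exists_nat_gt ((f (fun _ => β) - b) / (-w v))
      have hmem : (fun v' => β - (n : ℝ) * (Pi.single v (1 : ℝ) : α → ℝ) v') ∈
          {x : α → ℝ | ∀ v, x v ≤ β} := by
        intro v'
        have : 0 ≤ (Pi.single v (1 : ℝ) : α → ℝ) v' := by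
          rw [Pi.single_apply]
          split_ifs <;> norm_num
        have h3 : 0 ≤ (n : ℝ) * (Pi.single v (1 : ℝ) : α → ℝ) v' :=
          mul_nonneg (Nat.cast_nonneg n) this
        show β - _ ≤ β
        linarith
      have h3 := h2 _ hmem
      have h4 : f (fun v' => β - (n : ℝ) * (Pi.single v (1 : ℝ) : α → ℝ) v') =
          f (fun _ => β) + n * w v := by
        rw [hf, hf]
        have : ∑ x, w x * (β - (n : ℝ) * (Pi.single v (1 : ℝ) : α → ℝ) x) =
            ∑ x, w x * β - n * w v := by
          have e5 : ∀ x, w x * (β - (n : ℝ) * (Pi.single v (1 : ℝ) : α → ℝ) x) =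
              w x * β - n * (w x * (Pi.single v (1 : ℝ) : α → ℝ) x) := fun x => by ring
          simp only [e5, Finset.sum_sub_distrib, ← Finset.mul_sum]
          congr 2
          rw [Finset.sum_eq_single v]
          · simp
          · intro x _ hx
            simp [hx]
          · intro hx
            exact absurd (Finset.mem_univ v) hx
        rw [this]
        ring
      rw [h4] at h3
      rw [div_lt_iff₀ (by linarith)] at hn
      nlinarith
    obtain ⟨T, hT, hTc⟩ := h w hw0
    have h3 := h1 (lpInd T) (subset_convexHull ℝ _ (by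
      rw [hP]
      exact Finset.mem_coe.2 (Finset.mem_image_of_mem _ hT)))
    have h4 := h2 (fun _ => β) (fun _ => le_rfl)
    rw [hf] at h3 h4
    have e3 : ∑ v, w v * lpInd T v = ∑ v ∈ T, w v := by
      simp only [lpInd, mul_ite, mul_one, mul_zero, Finset.sum_ite_mem, Finset.univ_inter]
    have e4 : ∑ v, w v * β = β * ∑ v, w v := by
      rw [← Finset.sum_mul, mul_comm]
    rw [e3] at h3
    rw [e4] at h4
    linarith
  · rw [Set.not_disjoint_iff] at hd
    obtain ⟨x, hx, hxQ⟩ := hd
    rw [Finset.mem_convexHull'] at hx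
    obtain ⟨w, hw0, hw1, hwx⟩ := hx
    rw [hP, Finset.sum_image fun a _ b _ h => lpInd_inj h] at hw1 hwx
    refine ⟨fun T => if T ∈ S then w (lpInd T) else 0, ?_, ?_, ?_⟩
    · intro T
      dsimp only
      split_ifs with hT
      · exact hw0 _ (Finset.mem_image_of_mem _ hT)
      · exact le_rfl
    · rw [← hw1]
      exact Finset.sum_congr rfl fun T hT => by simp [hT]
    · intro v
      refine le_trans (le_of_eq ?_) (hxQ v)
      rw [← hwx, Finset.sum_apply, Finset.sum_filter]
      refine Finset.sum_congr rfl fun T hT => ?_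
      simp [hT, lpInd]

end Pool.Agent.Work.MP_918ecd_co.F
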