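import Pool.Agent.Work.MP_918ecd_co.F.Basic

/-!
Module Marg (M).  A point `μ` of the convex hull of the family whose (weighted) entropy is at least
the functional.  Induction on `l` generalizing `a s`.
`[]`: `A s` holds (else `Fn = 0`), `Fn = 1`, `log 1 = 0`; `μ = 0`; `b ≥ 0` by `Z' = ∅`.
`v :: l`: `x = Fn u A l (u v) s`, `y = Fn u A l (u v) (insert v s)`, `x, y ≥ 0`, `x + y > 0`
(as `(x+y)^(u v / a) > 0` and `u v / a > 0`), and `a * log ((x+y)^(u v / a)) = u v * log (x+y)`.
 * `y = 0` (so `x > 0`): take `μ0` for `s`, put `μ v = 0` and `μ = μ0` elsewhere (`binEntropy 0 = 0`);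
   for the last property use the same `Z' ⊆ l ⊆ v :: l`.
 * `x = 0`: take `μ1` for `insert v s`, `μ v = 1` (`binEntropy 1 = 0`); apply the last property of
   `μ1` with `b - w v` (`s ∪ insert v Z' = insert v s ∪ Z'`, `v ∉ Z'`).
 * both positive: `q = y / (x+y)`, `log (x+y) = binEntropy q + (1-q) log x + q log y`;
   `μ v = q`, `μ w = (1-q) μ0 w + q μ1 w`; concavity of `binEntropy` on `[0,1]`
   (`Real.strictConcave_binEntropy.concaveOn`); last property: `q w v + (1-q) b + q (b - w v) = b`.
-/

namespace Pool.Agent.Work.MP_918ecd_co.F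

open Finset

variable {α : Type*} [DecidableEq α]

private lemma sum_upd (l : Finset α) (v : α) (hv : v ∉ l) (g : α → ℝ → ℝ) (c : ℝ) (μ : α → ℝ) :
    ∑ w ∈ insert v l, g w (if w = v then c else μ w) = g v c + ∑ w ∈ l, g w (μ w) := by
  rw [sum_insert hv, if_pos rfl]
  congr 1
  refine sum_congr rfl fun w hw => ?_
  rw [if_neg]
  rintro rfl
  exact hv hw

private lemma log_split (x y : ℝ) (hx : 0 < x) (hy : 0 < y) :
    Real.log (x + y) = Real.binEntropy (y / (x + y)) + (1 - y / (x + y)) * Real.log x
      + y / (x + y) * Real.log y := by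
  have hxy : 0 < x + y := by linarith
  have h1 : 1 - y / (x + y) = x / (x + y) := by
    field_simp
    ring
  rw [Real.binEntropy, h1, Real.log_inv, Real.log_inv, Real.log_div hy.ne' hxy.ne',
    Real.log_div hx.ne' hxy.ne']
  have h2 : x / (x + y) + y / (x + y) = 1 := by
    field_simp
  linear_combination (- Real.log (x + y)) * h2

theorem marg (u : α → ℝ) (A : Finset α → Prop) (l : List α) (hnd : l.Nodup)
    (hpos : ∀ v ∈ l, 0 < u v) (a : ℝ) (ha0 : 0 < a) (s : Finset α) (hs : ∀ v ∈ l, v ∉ s)
    (hF : 0 < Fn u A l a s) :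
    ∃ μ : α → ℝ, (∀ v, 0 ≤ μ v ∧ μ v ≤ 1) ∧
      a * Real.log (Fn u A l a s) ≤ ∑ v ∈ l.toFinset, u v * Real.binEntropy (μ v) ∧
      ∀ (w : α → ℝ) (b : ℝ), (∀ Z ⊆ l.toFinset, A (s ∪ Z) → ∑ v ∈ Z, w v ≤ b) →
        ∑ v ∈ l.toFinset, w v * μ v ≤ b := by
  induction l generalizing a s with
  | nil =>
    have hA : A s := by
      by_contra h
      rw [Fn_nil_of_not u a h] at hF
      exact lt_irrefl _ hF
    refine ⟨fun _ => 0, fun v => ⟨le_rfl, zero_le_one⟩, ?_, ?_⟩
    · rw [Fn_nil_of u a hA]
      simp
    · intro w b h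
      have := h ∅ (by simp) (by simpa using hA)
      simpa using this
  | cons v l ih =>
    rw [List.nodup_cons] at hnd
    obtain ⟨hvl, hnd⟩ := hnd
    have huv : 0 < u v := hpos v (by simp)
    have hpos' : ∀ w ∈ l, 0 < u w := fun w hw => hpos w (by simp [hw])
    have hvL : v ∉ l.toFinset := by simpa using hvl
    have hsv : v ∉ s := hs v (by simp)
    have hs' : ∀ w ∈ l, w ∉ s := fun w hw => hs w (by simp [hw])
    have hs1 : ∀ w ∈ l, w ∉ insert v s := by
      intro w hw h
      rw [mem_insert] at h
      rcases h with h | h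
      · exact hvl (h ▸ hw)
      · exact hs' w hw h
    rw [Fn_cons] at hF ⊢
    set x := Fn u A l (u v) s with hx
    set y := Fn u A l (u v) (insert v s) with hy
    have hx0 : 0 ≤ x := Fn_nonneg _ _ _ _ _
    have hy0 : 0 ≤ y := Fn_nonneg _ _ _ _ _
    have hxy : 0 < x + y := by
      rcases (add_nonneg hx0 hy0).lt_or_eq with h | h
      · exact h
      · rw [← h, Real.zero_rpow (div_pos huv ha0).ne'] at hF
        exact absurd hF (lt_irrefl _)
    have hlog : a * Real.log ((x + y) ^ (u v / a)) = u v * Real.log (x + y) := by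
      rw [Real.log_rpow hxy]
      field_simp
    rw [hlog, List.toFinset_cons]
    have ext1 : ∀ Z : Finset α, s ∪ insert v Z = insert v s ∪ Z := by
      intro Z
      ext z
      simp only [mem_union, mem_insert]
      tauto
    have lastp1 : ∀ (w : α → ℝ) (b : ℝ),
        (∀ Z ⊆ insert v l.toFinset, A (s ∪ Z) → ∑ v ∈ Z, w v ≤ b) →
        ∀ Z ⊆ l.toFinset, A (insert v s ∪ Z) → ∑ v ∈ Z, w v ≤ b - w v := by
      intro w b h Z hZ hA
      have h1 := h (insert v Z) (insert_subset_insert v hZ) (by rwa [ext1])
      rw [sum_insert (fun hh => hvL (hZ hh))] at h1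
      linarith
    have lastp0 : ∀ (w : α → ℝ) (b : ℝ),
        (∀ Z ⊆ insert v l.toFinset, A (s ∪ Z) → ∑ v ∈ Z, w v ≤ b) →
        ∀ Z ⊆ l.toFinset, A (s ∪ Z) → ∑ v ∈ Z, w v ≤ b := by
      intro w b h Z hZ hA
      exact h Z (hZ.trans (subset_insert _ _)) hA
    rcases hy0.lt_or_eq with hyp | hyz
    · obtain ⟨μ1, hμ1, he1, hl1⟩ := ih hnd hpos' (u v) huv (insert v s) hs1 hyp
      rcases hx0.lt_or_eq with hxp | hxz
      · obtain ⟨μ0, hμ0, he0, hl0⟩ := ih hnd hpos' (u v) huv s hs' hxp
        have hq0 : 0 ≤ y / (x + y) := div_nonneg hy0 hxy.le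
        have hq1 : y / (x + y) ≤ 1 := by
          rw [div_le_one hxy]
          linarith
        set q := y / (x + y) with hq
        have hμq : ∀ w, 0 ≤ (1 - q) * μ0 w + q * μ1 w ∧ (1 - q) * μ0 w + q * μ1 w ≤ 1 := by
          intro w
          obtain ⟨h1, h2⟩ := hμ0 w
          obtain ⟨h3, h4⟩ := hμ1 w
          constructor
          · have := mul_nonneg (sub_nonneg.2 hq1) h1
            have := mul_nonneg hq0 h3
            linarith
          · have := mul_le_mul_of_nonneg_left h2 (sub_nonneg.2 hq1)
            have := mul_le_mul_of_nonneg_left h4 hq0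
            linarith
        refine ⟨fun w => if w = v then q else (1 - q) * μ0 w + q * μ1 w, ?_, ?_, ?_⟩
        · intro w
          dsimp only
          split_ifs
          · exact ⟨hq0, hq1⟩
          · exact hμq w
        · have h1 := sum_upd l.toFinset v hvL (fun w t => u w * Real.binEntropy t) q
            (fun w => (1 - q) * μ0 w + q * μ1 w)
          rw [h1, log_split x y hxp hyp, ← hq]
          have h2 : ∀ w ∈ l.toFinset, (1 - q) * (u w * Real.binEntropy (μ0 w))
              + q * (u w * Real.binEntropy (μ1 w))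
              ≤ u w * Real.binEntropy ((1 - q) * μ0 w + q * μ1 w) := by
            intro w hw
            have hc := Real.strictConcave_binEntropy.concaveOn.2
              (x := μ0 w) (Set.mem_Icc.2 (hμ0 w)) (y := μ1 w) (Set.mem_Icc.2 (hμ1 w))
              (sub_nonneg.2 hq1) hq0 (by ring)
            simp only [smul_eq_mul] at hc
            have huw : 0 ≤ u w := (hpos' w (by simpa using hw)).le
            calc _ = u w * ((1 - q) * Real.binEntropy (μ0 w) + q * Real.binEntropy (μ1 w)) := by
                  ring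
              _ ≤ _ := mul_le_mul_of_nonneg_left hc huw
          have h3 := sum_le_sum h2
          rw [sum_add_distrib, ← mul_sum, ← mul_sum] at h3
          have h4 := mul_le_mul_of_nonneg_left he0 (sub_nonneg.2 hq1)
          have h5 := mul_le_mul_of_nonneg_left he1 hq0
          rw [← hx] at h4
          rw [← hy] at h5
          calc u v * (Real.binEntropy q + (1 - q) * Real.log x + q * Real.log y)
              = u v * Real.binEntropy q + (1 - q) * (u v * Real.log x)
                + q * (u v * Real.log y) := by ring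
            _ ≤ _ := by linarith
        · intro w b h
          have h1 := sum_upd l.toFinset v hvL (fun z t => w z * t) q
            (fun z => (1 - q) * μ0 z + q * μ1 z)
          rw [h1]
          have h2 := hl0 w b (lastp0 w b h)
          have h3 := hl1 w (b - w v) (lastp1 w b h)
          have h4 : ∑ z ∈ l.toFinset, w z * ((1 - q) * μ0 z + q * μ1 z)
              = (1 - q) * ∑ z ∈ l.toFinset, w z * μ0 z + q * ∑ z ∈ l.toFinset, w z * μ1 z := by
            rw [mul_sum, mul_sum, ← sum_add_distrib]
            exact sum_congr rfl fun z _ => by ring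
          rw [h4]
          have h5 := mul_le_mul_of_nonneg_left h2 (sub_nonneg.2 hq1)
          have h6 := mul_le_mul_of_nonneg_left h3 hq0
          linarith
      · refine ⟨fun w => if w = v then 1 else μ1 w, ?_, ?_, ?_⟩
        · intro w
          dsimp only
          split_ifs
          · exact ⟨zero_le_one, le_rfl⟩
          · exact hμ1 w
        · have h1 := sum_upd l.toFinset v hvL (fun w t => u w * Real.binEntropy t) 1 μ1
          rw [h1, ← hxz, zero_add, Real.binEntropy_one, mul_zero, zero_add]
          exact he1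
        · intro w b h
          have h1 := sum_upd l.toFinset v hvL (fun z t => w z * t) 1 μ1
          rw [h1]
          have h3 := hl1 w (b - w v) (lastp1 w b h)
          linarith
    · have hxp : 0 < x := by linarith
      obtain ⟨μ0, hμ0, he0, hl0⟩ := ih hnd hpos' (u v) huv s hs' hxp
      refine ⟨fun w => if w = v then 0 else μ0 w, ?_, ?_, ?_⟩
      · intro w
        dsimp only
        split_ifs
        · exact ⟨le_rfl, zero_le_one⟩
        · exact hμ0 w
      · have h1 := sum_upd l.toFinset v hvL (fun w t => u w * Real.binEntropy t) 0 μ0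
        rw [h1, ← hyz, add_zero, Real.binEntropy_zero, mul_zero, zero_add]
        exact he0
      · intro w b h
        have h1 := sum_upd l.toFinset v hvL (fun z t => w z * t) 0 μ0
        rw [h1]
        have h2 := hl0 w b (lastp0 w b h)
        linarith

end Pool.Agent.Work.MP_918ecd_co.F
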