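import Pool.Agent.Work.MP_918ecd_co.F.Sel

/-!
Module PropP (M).  The colouring `C` is `(t,t)` on all edges with many points in a set `Y` that
carries a third of the cost.

Take `r = 64 t` and `C`, `μ` from `sel`.  Put `m v = (∑ f, μ f v) / r^|α| ∈ [0,1]` and
`Y = {v | 1/32 ≤ m v}`.
(1) Cost of `Y`: by Jensen (`binEntropy` concave on `[0,1]`)
 `(∑ f, binEntropy (μ f v)) / r^|α| ≤ binEntropy (m v)`, which is `≤ log 2` always
 (`Real.binEntropy_le_log_two`) and, for `v ∉ Y`, `≤ binEntropy (1/32) ≤ (log 2)/4`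
 (`Real.binEntropy_strictMonoOn` on `[0, 1/2]`;
  `binEntropy (1/32) = (1/32) log 32 + (31/32) log (32/31) ≤ (5 log 2 + 1)/32 ≤ (log 2)/4` because
  `log 32 = 5 log 2`, `log (32/31) ≤ 1/31` and `log 2 > 1/3`).
 So `(log 2 / 2) u(α) ≤ log 2 * u(Y) + (log 2 / 4) (u(α) - u(Y))`, i.e. `u(α) ≤ 3 u(Y)`.
(2) Let `e ∈ E`, `W = e ∩ Y`, and suppose one colour class `D` of `e` (`D = e ∩ C` or
 `D = e \ C`) has `|D| ≤ t - 1`.  For `f`, `j`: if no `d ∈ D` has `f d = j` then every `Z` with
 `f = j` on `Z` and `ψ Z` agreeing with `C` on `Z` has `|e ∩ Z| ≤ M - 1` (otherwise the rule gives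
 a point of `e ∩ Z` of the colour of `D`, which lies in `D` and in the part `j`), so with
 `w = 1_W`, `b = M - 1`: `∑_{f v = j} 1_W(v) μ f v ≤ M - 1`.  In general
 `∑_{f v = j} 1_W(v) μ f v ≤ #{v ∈ W, f v = j}`.  Sum over `j : Fin r`:
 `∑_{v ∈ W} μ f v ≤ r (M-1) + #{v ∈ W | ∃ d ∈ D, f d = f v}`.
 Average over `f` (`sum_collide`):
 `|W|/32 ≤ ∑_{v ∈ W} m v ≤ r (M-1) + |D| + |W| |D| / r ≤ 64 t (M-1) + (t-1) + |W|/64`,
 so `|W| ≤ 64 (64 t (M-1) + t - 1) < 4096 t M`.
-/

namespace Pool.Agent.Work.MP_918ecd_co.F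

open Finset

variable {α : Type*} [DecidableEq α] [Fintype α]

private lemma binEntropy_small {x : ℝ} (h0 : 0 ≤ x) (h1 : x ≤ 1 / 32) :
    Real.binEntropy x ≤ Real.log 2 / 4 := by
  have hmono : Real.binEntropy x ≤ Real.binEntropy (1 / 32) := by
    rcases h1.eq_or_lt with h | h
    · rw [h]
    · exact (Real.binEntropy_strictMonoOn (by constructor <;> norm_num <;> linarith)
        (by constructor <;> norm_num) h).le
  refine hmono.trans ?_
  have h2 : Real.binEntropy (1 / 32) = 1 / 32 * Real.log 32 + 31 / 32 * Real.log (32 / 31) := by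
    rw [Real.binEntropy]
    norm_num
  have h3 : Real.log 32 = 5 * Real.log 2 := by
    rw [show (32 : ℝ) = 2 ^ 5 by norm_num, Real.log_pow]
    norm_num
  have h4 : Real.log (32 / 31) ≤ 1 / 31 := by
    have := Real.log_le_sub_one_of_pos (show (0 : ℝ) < 32 / 31 by norm_num)
    linarith
  have h5 : (0.6931471803 : ℝ) < Real.log 2 := Real.log_two_gt_d9
  rw [h2, h3]
  linarith

private lemma sum_parts (r : ℕ) (f : α → Fin r) (g : α → ℝ) :
    ∑ j : Fin r, ∑ v ∈ univ.filter (fun v => f v = j), g v = ∑ v, g v :=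
  Finset.sum_fiberwise univ f g

theorem propP (E : Finset (Finset α)) (M t : ℕ) (hM : 1 ≤ M) (ht : 1 ≤ t)
    (ψ : Finset α → Finset α) (hψ : Rule M E ψ) (u : α → ℝ) (hu : ∀ v, 0 ≤ u v) :
    ∃ C Y : Finset α, ∑ v, u v ≤ 3 * ∑ v ∈ Y, u v ∧
      ∀ e ∈ E, 4096 * t * M ≤ (e ∩ Y).card → t ≤ (e ∩ C).card ∧ t ≤ (e \ C).card := by
  classical
  obtain ⟨C, μ, hμ, hsum, hmarg⟩ := sel (64 * t) (by omega) ψ u hu
  set R : ℝ := ((64 * t : ℕ) : ℝ) ^ Fintype.card α with hR
  have hr0 : (0 : ℝ) < ((64 * t : ℕ) : ℝ) := by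
    have : 0 < 64 * t := by omega
    exact_mod_cast this
  have hRpos : 0 < R := pow_pos hr0 _
  have hcard : ((univ : Finset (α → Fin (64 * t))).card : ℝ) = R := by
    rw [card_univ, Fintype.card_fun, Fintype.card_fin, hR]
    push_cast
    ring
  set m : α → ℝ := fun v => (∑ f, μ f v) / R with hm
  have hm0 : ∀ v, 0 ≤ m v := fun v => div_nonneg (sum_nonneg fun f _ => (hμ f v).1) hRpos.le
  have hsumm : ∀ v, ∑ f, μ f v = R * m v := by
    intro v
    rw [hm]
    field_simp
  set Y : Finset α := univ.filter (fun v => 1 / 32 ≤ m v) with hY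
  refine ⟨C, Y, ?_, ?_⟩
  · -- the cost of `Y`
    have hJ : ∀ v, ∑ f, Real.binEntropy (μ f v) ≤ R * Real.binEntropy (m v) := by
      intro v
      have h := (Real.strictConcave_binEntropy.concaveOn).le_map_sum (t := univ)
        (w := fun _ : α → Fin (64 * t) => 1 / R) (p := fun f => μ f v)
        (fun _ _ => by positivity)
        (by rw [sum_const, nsmul_eq_mul, hcard]; field_simp)
        (fun f _ => ⟨(hμ f v).1, (hμ f v).2⟩)
      simp only [smul_eq_mul] at h
      rw [← mul_sum, ← mul_sum] at h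
      have h1 : 1 / R * ∑ f, μ f v = m v := by
        rw [hm]
        ring
      rw [h1] at h
      have h2 := mul_le_mul_of_nonneg_left h hRpos.le
      calc ∑ f, Real.binEntropy (μ f v) = R * (1 / R * ∑ f, Real.binEntropy (μ f v)) := by
            field_simp
        _ ≤ _ := h2
    have hlog : 0 < Real.log 2 := Real.log_pos (by norm_num)
    have hb : ∀ v, Real.binEntropy (m v) ≤ Real.log 2 / 4
        + (if v ∈ Y then 3 / 4 * Real.log 2 else 0) := by
      intro v
      by_cases hv : v ∈ Y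
      · rw [if_pos hv]
        have := Real.binEntropy_le_log_two (p := m v)
        linarith
      · rw [if_neg hv, add_zero]
        refine binEntropy_small (hm0 v) ?_
        have : ¬ (1 / 32 ≤ m v) := fun h => hv (mem_filter.2 ⟨mem_univ _, h⟩)
        linarith
    have h1 : ∑ f, ∑ v, u v * Real.binEntropy (μ f v)
        ≤ ∑ v, u v * (R * (Real.log 2 / 4 + (if v ∈ Y then 3 / 4 * Real.log 2 else 0))) := by
      rw [sum_comm]
      refine sum_le_sum fun v _ => ?_
      rw [← mul_sum]
      refine mul_le_mul_of_nonneg_left ((hJ v).trans ?_) (hu v)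
      exact mul_le_mul_of_nonneg_left (hb v) hRpos.le
    have h2 : ∑ v, u v * (R * (Real.log 2 / 4 + (if v ∈ Y then 3 / 4 * Real.log 2 else 0)))
        = R * Real.log 2 * ((1 / 4) * ∑ v, u v + 3 / 4 * ∑ v ∈ Y, u v) := by
      have : ∀ v, u v * (R * (Real.log 2 / 4 + (if v ∈ Y then 3 / 4 * Real.log 2 else 0)))
          = R * Real.log 2 * (1 / 4) * u v + (if v ∈ Y then R * Real.log 2 * (3 / 4) * u v else 0) := by
        intro v
        split_ifs <;> ring
      rw [sum_congr rfl fun v _ => this v, sum_add_distrib, ← mul_sum, ← sum_filter,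
        filter_mem_eq_inter, univ_inter, ← mul_sum]
      ring
    have h3 := hsum.trans (h1.trans h2.le)
    have h4 : R * Real.log 2 * (1 / 2 * ∑ v, u v)
        ≤ R * Real.log 2 * ((1 / 4) * ∑ v, u v + 3 / 4 * ∑ v ∈ Y, u v) := by
      refine le_trans (le_of_eq ?_) h3
      ring
    have h5 := le_of_mul_le_mul_left h4 (mul_pos hRpos hlog)
    linarith
  · intro e he hW
    set W := e ∩ Y with hWdef
    -- a general bound for a small colour class `D`
    have key : ∀ D : Finset α, D.card + 1 ≤ t →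
        (∀ Z : Finset α, (∀ v ∈ Z, (v ∈ ψ Z ↔ v ∈ C)) → M ≤ (e ∩ Z).card →
          ∃ v ∈ Z, v ∈ D) → False := by
      intro D hD hDZ
      have hpart : ∀ (f : α → Fin (64 * t)) (j : Fin (64 * t)),
          ∑ v ∈ univ.filter (fun v => f v = j), (if v ∈ W then (1 : ℝ) else 0) * μ f v
            ≤ (M - 1 : ℝ) + ∑ v ∈ univ.filter (fun v => f v = j),
              (if v ∈ W ∧ ∃ d ∈ D, f d = f v then (1 : ℝ) else 0) := by
        intro f j
        by_cases hd : ∃ d ∈ D, f d = j
        · have h1 : ∑ v ∈ univ.filter (fun v => f v = j), (if v ∈ W then (1 : ℝ) else 0) * μ f v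
              ≤ ∑ v ∈ univ.filter (fun v => f v = j),
              (if v ∈ W ∧ ∃ d ∈ D, f d = f v then (1 : ℝ) else 0) := by
            refine sum_le_sum fun v hv => ?_
            have hv' : f v = j := (mem_filter.1 hv).2
            by_cases hvW : v ∈ W
            · have : v ∈ W ∧ ∃ d ∈ D, f d = f v := by
                refine ⟨hvW, ?_⟩
                rw [hv']
                exact hd
              rw [if_pos hvW, if_pos this, one_mul]
              exact (hμ f v).2
            · rw [if_neg hvW, zero_mul]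
              split_ifs <;> norm_num
          have h2 : (0 : ℝ) ≤ (M - 1 : ℝ) := by
            have : (1 : ℝ) ≤ M := by exact_mod_cast hM
            linarith
          linarith
        · have h1 := hmarg f j (fun v => if v ∈ W then (1 : ℝ) else 0) (M - 1 : ℝ) (by
            intro Z hZ hagr
            rw [← sum_filter, filter_mem_eq_inter, sum_const, nsmul_eq_mul, mul_one]
            have hlt : (e ∩ Z).card < M := by
              by_contra hcon
              push Not at hcon
              obtain ⟨v, hvZ, hvD⟩ := hDZ Z hagr hcon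
              exact hd ⟨v, hvD, hZ v hvZ⟩
            have hle : (Z ∩ W).card ≤ (e ∩ Z).card := by
              refine card_le_card ?_
              intro x hx
              rw [mem_inter] at hx ⊢
              rw [hWdef, mem_inter] at hx
              exact ⟨hx.2.1, hx.1⟩
            have : (Z ∩ W).card + 1 ≤ M := by omega
            have h3 : (((Z ∩ W).card : ℝ)) + 1 ≤ M := by exact_mod_cast this
            linarith)
          have h2 : (0 : ℝ) ≤ ∑ v ∈ univ.filter (fun v => f v = j),
              (if v ∈ W ∧ ∃ d ∈ D, f d = f v then (1 : ℝ) else 0) :=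
            sum_nonneg fun v _ => by split_ifs <;> norm_num
          linarith
      have htot : ∀ f : α → Fin (64 * t), ∑ v ∈ W, μ f v
          ≤ (64 * t : ℕ) * (M - 1 : ℝ) + ((W.filter (fun v => ∃ d ∈ D, f d = f v)).card : ℝ) := by
        intro f
        have h1 := sum_le_sum fun (j : Fin (64 * t)) (_ : j ∈ univ) => hpart f j
        rw [sum_add_distrib, sum_parts, sum_parts, sum_const, card_univ, Fintype.card_fin,
          nsmul_eq_mul] at h1
        have h2 : ∑ v, (if v ∈ W then (1 : ℝ) else 0) * μ f v = ∑ v ∈ W, μ f v := by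
          have : ∀ v, (if v ∈ W then (1 : ℝ) else 0) * μ f v = if v ∈ W then μ f v else 0 := by
            intro v
            split_ifs <;> simp
          rw [sum_congr rfl fun v _ => this v, ← sum_filter, filter_mem_eq_inter, univ_inter]
        have h3 : ∑ v, (if v ∈ W ∧ ∃ d ∈ D, f d = f v then (1 : ℝ) else 0)
            = ((W.filter (fun v => ∃ d ∈ D, f d = f v)).card : ℝ) := by
          rw [← sum_filter, sum_const, nsmul_eq_mul, mul_one]
          congr 2
          ext v
          simp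
        rw [h2, h3] at h1
        exact h1
      have hcol := sum_collide (64 * t) (by omega) W D
      have hfin : ∑ f, ∑ v ∈ W, μ f v ≤ R * ((64 * t : ℕ) * (M - 1 : ℝ))
          + ∑ f : α → Fin (64 * t), ((W.filter (fun v => ∃ d ∈ D, f d = f v)).card : ℝ) := by
        have h1 := sum_le_sum fun (f : α → Fin (64 * t)) (_ : f ∈ univ) => htot f
        rw [sum_add_distrib, sum_const, nsmul_eq_mul, hcard] at h1
        exact h1
      have hlow : R * ((1 / 32) * W.card) ≤ ∑ f, ∑ v ∈ W, μ f v := by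
        rw [sum_comm, sum_congr rfl fun v _ => hsumm v, ← mul_sum]
        refine mul_le_mul_of_nonneg_left ?_ hRpos.le
        have : ∑ v ∈ W, (1 / 32 : ℝ) ≤ ∑ v ∈ W, m v := by
          refine sum_le_sum fun v hv => ?_
          rw [hWdef] at hv
          exact (mem_filter.1 (mem_inter.1 hv).2).2
        rw [sum_const, nsmul_eq_mul] at this
        linarith
      -- combine
      set S : ℝ := ∑ f : α → Fin (64 * t), ((W.filter (fun v => ∃ d ∈ D, f d = f v)).card : ℝ)
        with hS
      have hcol' : ((64 * t : ℕ) : ℝ) * S ≤ R * (((64 * t : ℕ) : ℝ) * D.card + W.card * D.card) :=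
        hcol
      have h1 : R * ((1 / 32) * W.card) ≤ R * (((64 * t : ℕ) : ℝ) * (M - 1 : ℝ)) + S :=
        hlow.trans hfin
      have h2 : R * (((64 * t : ℕ) : ℝ) * ((1 / 32) * W.card))
          ≤ R * (((64 * t : ℕ) : ℝ) * (((64 * t : ℕ) : ℝ) * (M - 1 : ℝ))
            + (((64 * t : ℕ) : ℝ) * D.card + W.card * D.card)) := by
        nlinarith [mul_le_mul_of_nonneg_left h1 hr0.le]
      have h3 := le_of_mul_le_mul_left h2 hRpos
      have hDt : (D.card : ℝ) + 1 ≤ t := by exact_mod_cast hD
      have hWc : (4096 * t * M : ℝ) ≤ W.card := by exact_mod_cast hW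
      have htR : (1 : ℝ) ≤ t := by exact_mod_cast ht
      have hMR : (1 : ℝ) ≤ M := by exact_mod_cast hM
      push_cast at h3
      have hW0 : (0 : ℝ) ≤ W.card := Nat.cast_nonneg _
      have hD0 : (0 : ℝ) ≤ D.card := Nat.cast_nonneg _
      have h4 : (W.card : ℝ) * D.card ≤ W.card * (t - 1) :=
        mul_le_mul_of_nonneg_left (by linarith) hW0
      have h5 : (64 : ℝ) * t * D.card ≤ 64 * t * (t - 1) :=
        mul_le_mul_of_nonneg_left (by linarith) (by positivity)
      -- 2 t W ≤ 64² t² (M-1) + 64 t (t-1) + W (t-1)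
      nlinarith [mul_le_mul_of_nonneg_left hWc (by linarith : (0:ℝ) ≤ t + 1),
        mul_nonneg (by linarith : (0:ℝ) ≤ (t:ℝ) - 1) (by linarith : (0:ℝ) ≤ (M:ℝ) - 1),
        mul_nonneg (mul_nonneg (by linarith : (0:ℝ) ≤ (t:ℝ)) (by linarith : (0:ℝ) ≤ (t:ℝ)))
          (by linarith : (0:ℝ) ≤ (M:ℝ) - 1)]
    constructor
    · by_contra hcon
      push Not at hcon
      refine key (e ∩ C) (by omega) ?_
      intro Z hagr hcard'
      obtain ⟨v, hv, hvψ⟩ := (hψ Z e he hcard').1
      rw [mem_inter] at hv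
      exact ⟨v, hv.2, mem_inter.2 ⟨hv.1, (hagr v hv.2).1 hvψ⟩⟩
    · by_contra hcon
      push Not at hcon
      refine key (e \ C) (by omega) ?_
      intro Z hagr hcard'
      obtain ⟨v, hv, hvψ⟩ := (hψ Z e he hcard').2
      rw [mem_inter] at hv
      exact ⟨v, hv.2, mem_sdiff.2 ⟨hv.1, fun h => hvψ ((hagr v hv.2).2 h)⟩⟩

end Pool.Agent.Work.MP_918ecd_co.F
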