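import Pool.Agent.Work.MP_918ecd_co.F.Avg
import Pool.Agent.Work.MP_918ecd_co.F.Marg
import Pool.Agent.Work.MP_918ecd_co.F.Cnt

/-!
Module Sel (M).  Selection of the colouring `C`: average of `avg` over all `f : α → Fin r` and all
parts `f⁻¹(j)`.

For `f`, `j` let `L f j = univ.filter (fun v => f v = j ∧ 0 < u v)` and `l f j` a list with
`(l f j).toFinset = L f j`, `Nodup`, sorted by decreasing `u` (e.g.
`(L f j).toList.mergeSort (fun x y => decide (u y ≤ u x))`, `List.perm_mergeSort`,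
`List.pairwise_mergeSort`; or an abstract lemma: every Finset is the `toFinset` of such a list).
Fix `a = 1 + ∑ v, u v` (`a ≥ u v` for all `v`).  Put
 `Φ f j C = a * log (Fn u (Agr ψ C (l f j)) (l f j) a ∅)`.
It depends only on `C ∩ L f j` (`Fn_congr`, or `Agr ψ C l = Agr ψ (C ∩ l.toFinset) l`), so by
`sum_inter` and `avg` (`s = ∅`)
 `∑_C Φ f j C ≥ 2^|α| (log 2 / 2) ∑_{v ∈ L f j} u v`.
Sum over `j` and `f` (the `L f j`, `j : Fin r`, partition `{u v > 0}`; `r^|α|` functions):
 `∑_C ∑_f ∑_j Φ f j C ≥ 2^|α| r^|α| (log 2 / 2) ∑_v u v`, so for some `C`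
 `∑_f ∑_j Φ f j C ≥ r^|α| (log 2 / 2) ∑_v u v` (`Finset.exists_le_of_sum_le`).
For this `C` apply `marg` to every `(f, j)` (`Fn > 0` by `Fn_pos`: `Agr ψ C l ∅` is vacuous), get
`μ' f j`, and put `μ f v = μ' f (f v) v` if `0 < u v`, and `0` otherwise (`binEntropy 0 = 0`; the
cost-zero vertices do not contribute).  In the last property the hypothesis is only used for
`Z ⊆ L f j`; `Agr ψ C (l f j) Z` is the displayed condition for such `Z`.
-/

namespace Pool.Agent.Work.MP_918ecd_co.F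

open Finset

variable {α : Type*} [DecidableEq α]

private lemma exists_sorted (u : α → ℝ) (L : Finset α) :
    ∃ l : List α, l.Nodup ∧ l.toFinset = L ∧ l.Pairwise (fun x y => u y ≤ u x) := by
  classical
  refine ⟨L.toList.mergeSort (fun x y => decide (u y ≤ u x)), ?_, ?_, ?_⟩
  · exact (List.mergeSort_perm _ _).nodup_iff.2 L.nodup_toList
  · ext v
    rw [List.mem_toFinset, List.mem_mergeSort, Finset.mem_toList]
  · have h := List.pairwise_mergeSort (le := fun x y => decide (u y ≤ u x))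
      (by
        intro x y z h1 h2
        simp only [decide_eq_true_eq] at h1 h2 ⊢
        exact h2.trans h1)
      (by
        intro x y
        simp only [Bool.or_eq_true, decide_eq_true_eq]
        exact le_total _ _) L.toList
    exact h.imp (fun h => by simpa using h)

variable [Fintype α]

private lemma sum_phi (ψ : Finset α → Finset α) (u : α → ℝ) (l : List α) (hnd : l.Nodup)
    (hl : l.Pairwise (fun x y => u y ≤ u x)) (hpos : ∀ v ∈ l, 0 < u v)
    (a : ℝ) (ha0 : 0 < a) (ha : ∀ v ∈ l, u v ≤ a) :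
    (2 : ℝ) ^ Fintype.card α * (Real.log 2 / 2 * ∑ v ∈ l.toFinset, u v)
      ≤ ∑ C : Finset α, a * Real.log (Fn u (Agr ψ C l) l a ∅) := by
  have h1 := avg ψ u l hnd hl hpos a ha0 ha ∅ (by simp)
  have h2 : (l.map u).sum = ∑ v ∈ l.toFinset, u v := (List.sum_toFinset u hnd).symm
  have h3 : l.length = l.toFinset.card := (List.toFinset_card_of_nodup hnd).symm
  rw [h2, h3] at h1
  set g : Finset α → ℝ := fun D => a * Real.log (Fn u (Agr ψ D l) l a ∅) with hg
  have h4 : ∀ C : Finset α, a * Real.log (Fn u (Agr ψ C l) l a ∅) = g (C ∩ l.toFinset) := by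
    intro C
    rw [hg]
    have : Fn u (Agr ψ C l) l a ∅ = Fn u (Agr ψ (C ∩ l.toFinset) l) l a ∅ := by
      refine Fn_congr u l a ∅ fun Z _ _ => ?_
      unfold Agr
      refine forall₂_congr fun v hv => ?_
      have : v ∈ C ∩ l.toFinset ↔ v ∈ C := by
        rw [mem_inter, List.mem_toFinset]
        exact ⟨fun h => h.1, fun h => ⟨h, hv⟩⟩
      rw [this]
    rw [this]
  have h5 := sum_inter l.toFinset g
  have h6 : ∑ C ∈ l.toFinset.powerset, g C
      = a * ∑ C ∈ l.toFinset.powerset, Real.log (Fn u (Agr ψ C l) l a ∅) := by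
    rw [mul_sum]
  rw [← h6] at h1
  rw [sum_congr rfl fun C _ => h4 C]
  have h7 : (0 : ℝ) < 2 ^ l.toFinset.card := by positivity
  refine le_of_mul_le_mul_left ?_ h7
  rw [h5]
  calc (2 : ℝ) ^ l.toFinset.card * ((2 : ℝ) ^ Fintype.card α
        * (Real.log 2 / 2 * ∑ v ∈ l.toFinset, u v))
      = (2 : ℝ) ^ Fintype.card α * ((2 : ℝ) ^ l.toFinset.card
        * (Real.log 2 / 2 * ∑ v ∈ l.toFinset, u v)) := by ring
    _ ≤ _ := mul_le_mul_of_nonneg_left h1 (by positivity)

private lemma sum_blocks (r : ℕ) (f : α → Fin r) (u : α → ℝ) (hu : ∀ v, 0 ≤ u v) (g : α → ℝ) :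
    ∑ j : Fin r, ∑ v ∈ univ.filter (fun v => f v = j ∧ 0 < u v), u v * g v
      = ∑ v, u v * g v := by
  rw [← Finset.sum_fiberwise univ f (fun v => u v * g v)]
  refine sum_congr rfl fun j _ => ?_
  rw [← filter_filter]
  refine sum_filter_of_ne fun v _ hne => ?_
  rcases (hu v).eq_or_lt with h | h
  · rw [← h, zero_mul] at hne
    exact absurd rfl hne
  · exact h

theorem sel (r : ℕ) (hr : 1 ≤ r) (ψ : Finset α → Finset α) (u : α → ℝ) (hu : ∀ v, 0 ≤ u v) :
    ∃ C : Finset α, ∃ μ : (α → Fin r) → α → ℝ, (∀ f v, 0 ≤ μ f v ∧ μ f v ≤ 1) ∧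
      (r : ℝ) ^ Fintype.card α * (Real.log 2 / 2 * ∑ v, u v)
        ≤ ∑ f, ∑ v, u v * Real.binEntropy (μ f v) ∧
      ∀ (f : α → Fin r) (j : Fin r) (w : α → ℝ) (b : ℝ),
        (∀ Z : Finset α, (∀ v ∈ Z, f v = j) → (∀ v ∈ Z, (v ∈ ψ Z ↔ v ∈ C)) →
          ∑ v ∈ Z, w v ≤ b) →
        ∑ v ∈ univ.filter (fun v => f v = j), w v * μ f v ≤ b := by
  classical
  have hsort : ∀ (f : α → Fin r) (j : Fin r), ∃ l : List α, l.Nodup ∧
      l.toFinset = univ.filter (fun v => f v = j ∧ 0 < u v) ∧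
      l.Pairwise (fun x y => u y ≤ u x) := fun f j => exists_sorted u _
  choose l hnd hlf hl using hsort
  have hmem : ∀ f j v, v ∈ l f j ↔ f v = j ∧ 0 < u v := by
    intro f j v
    rw [← List.mem_toFinset, hlf, mem_filter]
    simp
  set a : ℝ := 1 + ∑ v, u v with ha
  have hS : 0 ≤ ∑ v, u v := sum_nonneg fun v _ => hu v
  have ha0 : 0 < a := by rw [ha]; linarith
  have hua : ∀ v, u v ≤ a := by
    intro v
    have := single_le_sum (fun w _ => hu w) (mem_univ v)
    rw [ha]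
    linarith
  set Φ : (α → Fin r) → Fin r → Finset α → ℝ :=
    fun f j C => a * Real.log (Fn u (Agr ψ C (l f j)) (l f j) a ∅) with hΦ
  have htot : (2 : ℝ) ^ Fintype.card α * ((r : ℝ) ^ Fintype.card α
      * (Real.log 2 / 2 * ∑ v, u v)) ≤ ∑ C : Finset α, ∑ f, ∑ j, Φ f j C := by
    have e1 : ∑ C : Finset α, ∑ f, ∑ j, Φ f j C = ∑ f, ∑ j, ∑ C : Finset α, Φ f j C := by
      rw [sum_comm]
      refine sum_congr rfl fun f _ => ?_
      rw [sum_comm]
    rw [e1]
    have e2 : ∀ f : α → Fin r, (2 : ℝ) ^ Fintype.card α * (Real.log 2 / 2 * ∑ v, u v)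
        ≤ ∑ j, ∑ C : Finset α, Φ f j C := by
      intro f
      have h1 := sum_le_sum fun (j : Fin r) (_ : j ∈ univ) =>
        sum_phi ψ u (l f j) (hnd f j) (hl f j) (fun v hv => ((hmem f j v).1 hv).2) a ha0
          (fun v _ => hua v)
      refine le_trans (le_of_eq ?_) h1
      rw [← mul_sum, ← mul_sum]
      congr 2
      have h2 := sum_blocks r f u hu (fun _ => 1)
      simp only [mul_one] at h2
      rw [← h2]
      exact sum_congr rfl fun j _ => by rw [hlf]
    have h3 := sum_le_sum fun (f : α → Fin r) (_ : f ∈ univ) => e2 f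
    rw [sum_const, nsmul_eq_mul] at h3
    refine le_trans (le_of_eq ?_) h3
    rw [card_univ, Fintype.card_fun, Fintype.card_fin]
    push_cast
    ring
  obtain ⟨C, -, hC⟩ := exists_le_of_sum_le (s := (univ : Finset (Finset α))) univ_nonempty
    (f := fun _ => (r : ℝ) ^ Fintype.card α * (Real.log 2 / 2 * ∑ v, u v))
    (g := fun C => ∑ f, ∑ j, Φ f j C) (by
      rw [sum_const, nsmul_eq_mul, card_univ, Fintype.card_finset]
      push_cast
      exact htot)
  have hF : ∀ f j, 0 < Fn u (Agr ψ C (l f j)) (l f j) a ∅ := by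
    intro f j
    refine Fn_pos u _ a ?_
    intro v _ hv
    exact absurd hv (notMem_empty v)
  have hm : ∀ (f : α → Fin r) (j : Fin r), ∃ μ : α → ℝ, (∀ v, 0 ≤ μ v ∧ μ v ≤ 1) ∧
      Φ f j C ≤ ∑ v ∈ (l f j).toFinset, u v * Real.binEntropy (μ v) ∧
      ∀ (w : α → ℝ) (b : ℝ), (∀ Z ⊆ (l f j).toFinset, Agr ψ C (l f j) (∅ ∪ Z) →
        ∑ v ∈ Z, w v ≤ b) → ∑ v ∈ (l f j).toFinset, w v * μ v ≤ b := fun f j =>
    marg u (Agr ψ C (l f j)) (l f j) (hnd f j) (fun v hv => ((hmem f j v).1 hv).2) a ha0 ∅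
      (fun v _ => notMem_empty v) (hF f j)
  choose μ' hμ1 hμ2 hμ3 using hm
  refine ⟨C, fun f v => if 0 < u v then μ' f (f v) v else 0, ?_, ?_, ?_⟩
  · intro f v
    beta_reduce
    split_ifs
    · exact hμ1 f (f v) v
    · exact ⟨le_refl 0, zero_le_one⟩
  · refine hC.trans (sum_le_sum fun f _ => ?_)
    have h1 := sum_le_sum fun (j : Fin r) (_ : j ∈ univ) => hμ2 f j
    refine h1.trans (le_of_eq ?_)
    rw [← sum_blocks r f u hu
      (fun v => Real.binEntropy (if 0 < u v then μ' f (f v) v else 0))]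
    refine sum_congr rfl fun j _ => ?_
    rw [hlf]
    refine sum_congr rfl fun v hv => ?_
    have hv' := (mem_filter.1 hv).2
    rw [if_pos hv'.2, hv'.1]
  · intro f j w b hyp
    have h1 := hμ3 f j w b (by
      intro Z hZ hagr
      rw [empty_union] at hagr
      refine hyp Z (fun v hv => ?_) (fun v hv => ?_)
      · exact ((hmem f j v).1 (List.mem_toFinset.1 (hZ hv))).1
      · exact hagr v (List.mem_toFinset.1 (hZ hv)) hv)
    refine le_trans (le_of_eq ?_) h1
    rw [hlf, ← filter_filter, sum_filter (p := fun v => 0 < u v)]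
    refine sum_congr rfl fun v hv => ?_
    have hv' : f v = j := (mem_filter.1 hv).2
    beta_reduce
    by_cases h : 0 < u v
    · rw [if_pos h, if_pos h, hv']
    · rw [if_neg h, if_neg h, mul_zero]

end Pool.Agent.Work.MP_918ecd_co.F
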