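import Pool.Agent.Work.MP_918ecd_co.F.PropP

/-!
Module Step (M).  From `β` to `(5/6) β`, and iteration.

`step`: given `X`, `u`.  Apply `propP` to `E' = E.image (· ∩ X)` (the rule `ψ' Z = ψ (Z ∩ X)` is a
rule for `E'`: `(e ∩ X) ∩ Z = e ∩ (Z ∩ X)`), with `t := 2 t'` and the cost `u' = u` on `X`, `0`
outside; get `C`, `Y`; replace `Y` by `Y ∩ X` (edges of `E'` lie in `X`, so nothing changes):
`u(X) ≤ 3 u(Y)`.  Put `R = X \ Y`, and let `G` be the cheaper one of `Y ∩ C`, `Y \ C`, so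
`u(G) ≤ u(Y)/2`.  By `Cheap E N t' β` there are `T₁ ⊆ R`, `T₂ ⊆ G` with costs `≤ β u(R)`,
`≤ β u(G)`.  `T = T₁ ∪ T₂`: cost `≤ β (u(R) + u(Y)/2) = β (u(X) - u(Y)/2) ≤ (5/6) β u(X)`.
Let `e ∈ E`, `|e ∩ X| ≥ 8193 M t' ≥ 4096 (2 t') M + t'`.  If `|e ∩ R| ≥ t'`, then
`|e ∩ T₁| ≥ N`.  Otherwise `|e ∩ Y| ≥ 4096 (2t') M`, so `e ∩ X` has at least `2t'` points of the
colour of `G`, fewer than `t'` of them in `R`, so `|e ∩ G| ≥ t'` and `|e ∩ T₂| ≥ N`.
`iter`: induction on `j`; `j = 0`: `T = X`.  (`N ≤ (8193 M)^j N`.)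
-/

namespace Pool.Agent.Work.MP_918ecd_co.F

open Finset

variable {α : Type*} [DecidableEq α] [Fintype α]

theorem step (E : Finset (Finset α)) (M : ℕ) (hM : 1 ≤ M)
    (ψ : Finset α → Finset α) (hψ : Rule M E ψ) (N t' : ℕ) (ht : 1 ≤ t')
    (β : ℝ) (hβ : 0 ≤ β) (h : Cheap E N t' β) :
    Cheap E N (8193 * M * t') (5 / 6 * β) := by
  intro X u hu
  obtain ⟨C, Y₀, hY, hC⟩ := propP (E.image (· ∩ X)) M (2 * t') hM (by omega)
    (fun Z => ψ (Z ∩ X)) (by
      intro Z e' he' hc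
      obtain ⟨e, he, rfl⟩ := Finset.mem_image.1 he'
      have e1 : e ∩ X ∩ Z = e ∩ (Z ∩ X) := by
        ext v
        simp only [Finset.mem_inter]
        tauto
      rw [e1] at hc ⊢
      exact hψ (Z ∩ X) e he hc)
    (fun v => if v ∈ X then u v else 0) (by
      intro v
      split_ifs
      · exact hu v
      · exact le_rfl)
  obtain ⟨Y, rfl⟩ : ∃ Y, Y = Y₀ ∩ X := ⟨_, rfl⟩
  have hYX : Y₀ ∩ X ⊆ X := Finset.inter_subset_right
  set Y := Y₀ ∩ X with hYdef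
  have e1 : ∑ v, (if v ∈ X then u v else 0) = ∑ v ∈ X, u v := by
    rw [Finset.sum_ite_mem, Finset.univ_inter]
  have e2 : ∑ v ∈ Y₀, (if v ∈ X then u v else 0) = ∑ v ∈ Y, u v := by
    rw [Finset.sum_ite_mem]
  rw [e1, e2] at hY
  have hCC : ∀ e ∈ E, 4096 * (2 * t') * M ≤ (e ∩ Y).card →
      2 * t' ≤ (e ∩ X ∩ C).card ∧ 2 * t' ≤ (e ∩ X ∩ Cᶜ).card := by
    intro e he hc
    have e3 : e ∩ X ∩ Y₀ = e ∩ Y := by
      ext v
      simp only [hYdef, Finset.mem_inter]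
      tauto
    have h1 := hC (e ∩ X) (Finset.mem_image_of_mem _ he) (by rw [e3]; exact hc)
    refine ⟨h1.1, ?_⟩
    rw [← Finset.sdiff_eq_inter_compl]
    exact h1.2
  have hsplit : ∑ v ∈ Y ∩ C, u v + ∑ v ∈ Y ∩ Cᶜ, u v = ∑ v ∈ Y, u v := by
    rw [← Finset.sum_union]
    · congr 1
      ext v
      simp only [Finset.mem_union, Finset.mem_inter, Finset.mem_compl]
      tauto
    · rw [Finset.disjoint_left]
      intro v h1 h2
      simp only [Finset.mem_inter, Finset.mem_compl] at h1 h2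
      exact h2.2 h1.2
  obtain ⟨D, hD1, hD2⟩ : ∃ D : Finset α, 2 * ∑ v ∈ Y ∩ D, u v ≤ ∑ v ∈ Y, u v ∧
      ∀ e ∈ E, 4096 * (2 * t') * M ≤ (e ∩ Y).card → 2 * t' ≤ (e ∩ X ∩ D).card := by
    rcases le_total (∑ v ∈ Y ∩ C, u v) (∑ v ∈ Y ∩ Cᶜ, u v) with hle | hle
    · exact ⟨C, by linarith, fun e he hc => (hCC e he hc).1⟩
    · exact ⟨Cᶜ, by linarith, fun e he hc => (hCC e he hc).2⟩
  obtain ⟨T₁, hT₁, hc₁, hN₁⟩ := h (X \ Y) u hu
  obtain ⟨T₂, hT₂, hc₂, hN₂⟩ := h (Y ∩ D) u hu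
  have hR : ∑ v ∈ X \ Y, u v + ∑ v ∈ Y, u v = ∑ v ∈ X, u v := Finset.sum_sdiff hYX
  have hdis : Disjoint T₁ T₂ := by
    rw [Finset.disjoint_left]
    intro v h1 h2
    exact (Finset.mem_sdiff.1 (hT₁ h1)).2 (Finset.mem_inter.1 (hT₂ h2)).1
  refine ⟨T₁ ∪ T₂, ?_, ?_, ?_⟩
  · refine Finset.union_subset (hT₁.trans Finset.sdiff_subset) ?_
    exact hT₂.trans (Finset.inter_subset_left.trans hYX)
  · rw [Finset.sum_union hdis]
    nlinarith
  · intro e he hc
    by_cases h1 : t' ≤ (e ∩ (X \ Y)).card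
    · exact (hN₁ e he h1).trans (Finset.card_le_card
        (Finset.inter_subset_inter_left Finset.subset_union_left))
    · push Not at h1
      have e4 : (e ∩ X).card = (e ∩ (X \ Y)).card + (e ∩ Y).card := by
        rw [← Finset.card_union_of_disjoint]
        · congr 1
          ext v
          simp only [Finset.mem_union, Finset.mem_inter, Finset.mem_sdiff]
          constructor
          · rintro ⟨h1, h2⟩
            by_cases h3 : v ∈ Y
            · exact Or.inr ⟨h1, h3⟩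
            · exact Or.inl ⟨h1, h2, h3⟩
          · rintro (⟨h1, h2, h3⟩ | ⟨h1, h2⟩)
            · exact ⟨h1, h2⟩
            · exact ⟨h1, hYX h2⟩
        · rw [Finset.disjoint_left]
          intro v h2 h3
          exact (Finset.mem_sdiff.1 (Finset.mem_inter.1 h2).2).2 (Finset.mem_inter.1 h3).2
      have h2 : 4096 * (2 * t') * M ≤ (e ∩ Y).card := by
        have h3 : t' ≤ M * t' := Nat.le_mul_of_pos_left _ hM
        have h4 : 8193 * M * t' = 8192 * (M * t') + M * t' := by ring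
        have h5 : 4096 * (2 * t') * M = 8192 * (M * t') := by ring
        omega
      have h3 := hD2 e he h2
      have h4 : (e ∩ X ∩ D).card ≤ (e ∩ (X \ Y)).card + (e ∩ (Y ∩ D)).card := by
        refine le_trans (Finset.card_le_card ?_) (Finset.card_union_le _ _)
        intro v hv
        simp only [Finset.mem_inter, Finset.mem_union, Finset.mem_sdiff] at hv ⊢
        by_cases h5 : v ∈ Y
        · exact Or.inr ⟨hv.1.1, h5, hv.2⟩
        · exact Or.inl ⟨hv.1.1, hv.1.2, h5⟩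
      have h5 := hN₂ e he (by omega)
      exact h5.trans (Finset.card_le_card
        (Finset.inter_subset_inter_left Finset.subset_union_right))

theorem iter (E : Finset (Finset α)) (M : ℕ) (hM : 1 ≤ M)
    (ψ : Finset α → Finset α) (hψ : Rule M E ψ) (N : ℕ) (hN : 1 ≤ N) (j : ℕ) :
    Cheap E N ((8193 * M) ^ j * N) ((5 / 6) ^ j) := by
  induction j with
  | zero =>
    intro X u hu
    refine ⟨X, Finset.Subset.refl _, by simp, fun e _ hc => ?_⟩
    simpa using hc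
  | succ j ih =>
    have h1 : 1 ≤ (8193 * M) ^ j * N :=
      Nat.one_le_iff_ne_zero.2 (Nat.mul_ne_zero (pow_ne_zero _ (by omega)) (by omega))
    have h2 := step E M hM ψ hψ N ((8193 * M) ^ j * N) h1 ((5 / 6) ^ j) (by positivity) ih
    have e1 : (8193 * M) ^ (j + 1) * N = 8193 * M * ((8193 * M) ^ j * N) := by ring
    have e2 : (5 / 6 : ℝ) ^ (j + 1) = 5 / 6 * (5 / 6) ^ j := by ring
    rw [e1, e2]
    exact h2

end Pool.Agent.Work.MP_918ecd_co.F
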