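import Pool.Agent.Work.MP_918ecd_co.F.Basic

/-!
Module Sub (S).  Subadditivity of `Fn` in the family.
Induction on `l` generalizing `a s`.  `[]`: cases on `A s`, `B s`.  `v :: l`: by induction (with
`a := u v`, which is at least `u y` for all `y ∈ l` by `hl`) both summands are subadditive, so with
`p = u v / a ∈ [0,1]`: `(X0 + X1)^p ≤ ((a0 + a1) + (b0 + b1))^p ≤ (a0 + a1)^p + (b0 + b1)^p`
(`Real.rpow_le_rpow`, and `Real.rpow_add_le_add_rpow` or `NNReal.rpow_add_le_add_rpow`).
-/

namespace Pool.Agent.Work.MP_918ecd_co.F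

open Finset

variable {α : Type*} [DecidableEq α]

lemma Fn_union (u : α → ℝ) (A B : Finset α → Prop) (l : List α)
    (hl : l.Pairwise (fun x y => u y ≤ u x)) (hpos : ∀ v ∈ l, 0 < u v)
    (a : ℝ) (ha : ∀ v ∈ l, u v ≤ a) (s : Finset α) :
    Fn u (fun Z => A Z ∨ B Z) l a s ≤ Fn u A l a s + Fn u B l a s := by
  induction l generalizing a s with
  | nil =>
    by_cases hA : A s
    · rw [Fn_nil_of u (A := fun Z => A Z ∨ B Z) a (Or.inl hA), Fn_nil_of u a hA]
      linarith [Fn_nonneg u B [] a s]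
    · by_cases hB : B s
      · rw [Fn_nil_of u (A := fun Z => A Z ∨ B Z) a (Or.inr hB), Fn_nil_of u a hB]
        linarith [Fn_nonneg u A [] a s]
      · rw [Fn_nil_of_not u (A := fun Z => A Z ∨ B Z) a (by tauto)]
        exact add_nonneg (Fn_nonneg u A [] a s) (Fn_nonneg u B [] a s)
  | cons v l ih =>
    rw [List.pairwise_cons] at hl
    have hv : 0 < u v := hpos v (by simp)
    have hva : u v ≤ a := ha v (by simp)
    have ha0 : 0 < a := hv.trans_le hva
    have hl' : ∀ w ∈ l, 0 < u w := fun w hw => hpos w (by simp [hw])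
    have h0 := ih hl.2 hl' (u v) hl.1 s
    have h1 := ih hl.2 hl' (u v) hl.1 (insert v s)
    have n1 := Fn_nonneg u (fun Z => A Z ∨ B Z) l (u v) s
    have n2 := Fn_nonneg u (fun Z => A Z ∨ B Z) l (u v) (insert v s)
    have a0 := Fn_nonneg u A l (u v) s
    have a1 := Fn_nonneg u A l (u v) (insert v s)
    have b0 := Fn_nonneg u B l (u v) s
    have b1 := Fn_nonneg u B l (u v) (insert v s)
    rw [Fn_cons, Fn_cons, Fn_cons]
    have hp0 : 0 ≤ u v / a := div_nonneg hv.le ha0.le
    have hp1 : u v / a ≤ 1 := (div_le_one ha0).2 hva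
    calc (Fn u (fun Z => A Z ∨ B Z) l (u v) s + Fn u (fun Z => A Z ∨ B Z) l (u v) (insert v s)) ^ (u v / a)
        ≤ ((Fn u A l (u v) s + Fn u A l (u v) (insert v s)) +
            (Fn u B l (u v) s + Fn u B l (u v) (insert v s))) ^ (u v / a) := by
          apply Real.rpow_le_rpow (by linarith) (by linarith) hp0
      _ ≤ _ := Real.rpow_add_le_add_rpow (by linarith) (by linarith) hp0 hp1

end Pool.Agent.Work.MP_918ecd_co.F
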