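import Pool.Agent.Work.MP_918ecd_co.F.Step
import Pool.Agent.Work.MP_918ecd_co.F.LP
import Pool.Agent.Work.MP_918ecd_co.Hit

/-!
From `Fintype` ground sets to finite vertex sets `V`.
-/

namespace Pool.Agent.Work.MP_918ecd_co.F

open Finset

variable {α : Type*} [DecidableEq α]

/-- the embedding of the subtype -/
abbrev emb (V : Finset α) : {x // x ∈ V} ↪ α := Function.Embedding.subtype (· ∈ V)

lemma map_subtype_inter (V : Finset α) (e : Finset α) (X : Finset {x // x ∈ V}) :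
    (e.subtype (· ∈ V) ∩ X).map (emb V) = e ∩ X.map (emb V) := by
  ext v
  simp only [mem_map, mem_inter, mem_subtype, Function.Embedding.coe_subtype, Subtype.exists,
    exists_and_right, exists_eq_right]
  constructor
  · rintro ⟨hv, h1, h2⟩
    exact ⟨h1, hv, h2⟩
  · rintro ⟨h1, hv, h2⟩
    exact ⟨hv, h1, h2⟩

lemma card_subtype_inter (V : Finset α) (e : Finset α) (X : Finset {x // x ∈ V}) :
    (e.subtype (· ∈ V) ∩ X).card = (e ∩ X.map (emb V)).card := by
  rw [← map_subtype_inter, card_map]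

lemma rule_of_good {M : ℕ} (hM : 1 ≤ M) {V : Finset α} {E : Finset (Finset α)}
    (hg : Good (M - 1) V E) :
    ∃ ψ : Finset {x // x ∈ V} → Finset {x // x ∈ V},
      Rule M (E.image (fun e => e.subtype (· ∈ V))) ψ := by
  classical
  have key : ∀ Z : Finset {x // x ∈ V}, ∃ D : Finset {x // x ∈ V}, ∀ e ∈ E,
      M ≤ (e ∩ Z.map (emb V)).card →
        (∃ v ∈ e.subtype (· ∈ V) ∩ Z, v ∈ D) ∧ (∃ v ∈ e.subtype (· ∈ V) ∩ Z, v ∉ D) := by
    intro Z
    have hZ : Z.map (emb V) ⊆ V := by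
      intro x hx
      obtain ⟨y, _, rfl⟩ := mem_map.1 hx
      exact y.2
    obtain ⟨c, hc⟩ := hg _ hZ
    refine ⟨univ.filter (fun v => c v.1 = true), fun e he hcard => ?_⟩
    have hlt : M - 1 < (e ∩ Z.map (emb V)).card := by omega
    constructor
    · obtain ⟨v, hv, hvc⟩ := hc e he hlt true
      rw [← map_subtype_inter] at hv
      obtain ⟨y, hy, rfl⟩ := mem_map.1 hv
      exact ⟨y, hy, by simpa using hvc⟩
    · obtain ⟨v, hv, hvc⟩ := hc e he hlt false
      rw [← map_subtype_inter] at hv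
      obtain ⟨y, hy, rfl⟩ := mem_map.1 hv
      refine ⟨y, hy, ?_⟩
      have : c y.1 = false := by simpa using hvc
      simp [this]
  choose ψ hψ using key
  refine ⟨ψ, fun Z e' he' hcard => ?_⟩
  obtain ⟨e, he, rfl⟩ := mem_image.1 he'
  rw [card_subtype_inter] at hcard
  exact hψ Z e he hcard

/-- Cheap transversals in all traces. -/
theorem cheap_of_good {M : ℕ} (hM : 1 ≤ M) {V : Finset α} {E : Finset (Finset α)}
    (hg : Good (M - 1) V E) (N : ℕ) (hN : 1 ≤ N) (j : ℕ) (X : Finset α) (hX : X ⊆ V)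
    (u : α → ℝ) (hu : ∀ v, 0 ≤ u v) :
    ∃ T ⊆ X, ∑ v ∈ T, u v ≤ (5 / 6) ^ j * ∑ v ∈ X, u v ∧
      ∀ e ∈ E, (8193 * M) ^ j * N ≤ (e ∩ X).card → N ≤ (e ∩ T).card := by
  classical
  obtain ⟨ψ, hψ⟩ := rule_of_good hM hg
  have hch := iter _ M hM ψ hψ N hN j
  obtain ⟨T, hT, hcost, hhit⟩ := hch (X.subtype (· ∈ V)) (fun v => u v.1) (fun v => hu v.1)
  have hXm : (X.subtype (· ∈ V)).map (emb V) = X := by
    rw [subtype_map]
    exact filter_true_of_mem hX
  refine ⟨T.map (emb V), ?_, ?_, ?_⟩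
  · rw [← hXm]
    exact map_subset_map.2 hT
  · rw [sum_map]
    have h2 : ∑ v ∈ X, u v = ∑ v ∈ X.subtype (· ∈ V), u v.1 := by
      conv_lhs => rw [← hXm]
      rw [sum_map]
      rfl
    rw [h2]
    exact hcost
  · intro e he hcard
    have h1 := hhit (e.subtype (· ∈ V)) (mem_image_of_mem _ he)
    rw [card_subtype_inter, card_subtype_inter, hXm] at h1
    exact h1 hcard

/-- LP duality on a finite set `V`. -/
theorem exists_dist' (V : Finset α) (P : Finset α → Prop) (β : ℝ)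
    (h : ∀ u : α → ℝ, (∀ v, 0 ≤ u v) → ∃ T ⊆ V, P T ∧ ∑ v ∈ T, u v ≤ β * ∑ v ∈ V, u v) :
    ∃ p : Finset α → ℝ, (∀ T, 0 ≤ p T) ∧ (∀ T, p T ≠ 0 → T ⊆ V ∧ P T) ∧
      ∑ T ∈ V.powerset, p T = 1 ∧
      ∀ v ∈ V, ∑ T ∈ V.powerset.filter (fun T => v ∈ T), p T ≤ β := by
  classical
  set S : Finset (Finset {x // x ∈ V}) := univ.filter (fun T => P (T.map (emb V))) with hS
  have hmap : ∀ T ⊆ V, (T.subtype (· ∈ V)).map (emb V) = T := by
    intro T hT
    rw [subtype_map]
    exact filter_true_of_mem hT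
  have hsub : ∀ T : Finset {x // x ∈ V}, T.map (emb V) ⊆ V := by
    intro T x hx
    obtain ⟨y, _, rfl⟩ := mem_map.1 hx
    exact y.2
  have hback : ∀ T : Finset {x // x ∈ V}, (T.map (emb V)).subtype (· ∈ V) = T := by
    intro T
    apply map_injective (emb V)
    exact hmap _ (hsub T)
  obtain ⟨p, hp0, hp1, hpv⟩ := exists_dist S β (by
    intro u hu
    obtain ⟨T, hTV, hPT, hcost⟩ := h (fun x => if hx : x ∈ V then u ⟨x, hx⟩ else 0) (by
      intro v
      by_cases hv : v ∈ V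
      · simp only [hv, dif_pos]
        exact hu _
      · simp [hv])
    refine ⟨T.subtype (· ∈ V), ?_, ?_⟩
    · rw [hS, mem_filter, hmap T hTV]
      exact ⟨mem_univ _, hPT⟩
    · have e1 : ∑ v ∈ T, (if hx : v ∈ V then u ⟨v, hx⟩ else 0)
          = ∑ v ∈ T.subtype (· ∈ V), u v := by
        conv_lhs => rw [← hmap T hTV]
        rw [sum_map]
        refine sum_congr rfl fun v _ => ?_
        have : (emb V) v ∈ V := v.2
        rw [dif_pos this]
        rfl
      have e2 : ∑ v ∈ V, (if hx : v ∈ V then u ⟨v, hx⟩ else 0) = ∑ v, u v := by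
        rw [← sum_coe_sort V]
        refine sum_congr rfl fun v _ => ?_
        rw [dif_pos v.2]
      rw [e1, e2] at hcost
      exact hcost)
  refine ⟨fun T => if T ⊆ V ∧ P T then p (T.subtype (· ∈ V)) else 0, ?_, ?_, ?_, ?_⟩
  · intro T
    beta_reduce
    by_cases hT : T ⊆ V ∧ P T
    · rw [if_pos hT]
      exact hp0 _
    · rw [if_neg hT]
  · intro T hT
    by_contra hcon
    exact hT (if_neg hcon)
  · rw [← hp1, ← sum_filter_add_sum_filter_not V.powerset (fun T => P T)]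
    have z : ∑ x ∈ V.powerset.filter (fun T => ¬ P T),
        (if x ⊆ V ∧ P x then p (x.subtype (· ∈ V)) else 0) = 0 := by
      refine sum_eq_zero fun x hx => ?_
      rw [if_neg]
      exact fun hh => (mem_filter.1 hx).2 hh.2
    rw [z, add_zero]
    refine sum_bij' (fun T _ => T.subtype (· ∈ V)) (fun T _ => T.map (emb V)) ?_ ?_ ?_ ?_ ?_
    · intro T hT
      obtain ⟨h1, h2⟩ := mem_filter.1 hT
      rw [hS, mem_filter, hmap T (mem_powerset.1 h1)]
      exact ⟨mem_univ _, h2⟩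
    · intro T hT
      exact mem_filter.2 ⟨mem_powerset.2 (hsub T), (mem_filter.1 hT).2⟩
    · intro T hT
      exact hmap T (mem_powerset.1 (mem_filter.1 hT).1)
    · intro T hT
      exact hback T
    · intro T hT
      obtain ⟨h1, h2⟩ := mem_filter.1 hT
      rw [if_pos ⟨mem_powerset.1 h1, h2⟩]
  · intro v hv
    refine le_trans (le_of_eq ?_) (hpv ⟨v, hv⟩)
    rw [← sum_filter_add_sum_filter_not (V.powerset.filter (fun T => v ∈ T)) (fun T => P T)]
    have z : ∑ x ∈ (V.powerset.filter (fun T => v ∈ T)).filter (fun T => ¬ P T),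
        (if x ⊆ V ∧ P x then p (x.subtype (· ∈ V)) else 0) = 0 := by
      refine sum_eq_zero fun x hx => ?_
      rw [if_neg]
      exact fun hh => (mem_filter.1 hx).2 hh.2
    rw [z, add_zero]
    refine sum_bij' (fun T _ => T.subtype (· ∈ V)) (fun T _ => T.map (emb V)) ?_ ?_ ?_ ?_ ?_
    · intro T hT
      obtain ⟨h1, h2⟩ := mem_filter.1 hT
      obtain ⟨h3, h4⟩ := mem_filter.1 h1
      rw [hS, mem_filter, mem_filter, hmap T (mem_powerset.1 h3), mem_subtype]
      exact ⟨⟨mem_univ _, h2⟩, h4⟩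
    · intro T hT
      obtain ⟨h1, h2⟩ := mem_filter.1 hT
      refine mem_filter.2 ⟨mem_filter.2 ⟨mem_powerset.2 (hsub T), ?_⟩, (mem_filter.1 h1).2⟩
      exact mem_map.2 ⟨⟨v, hv⟩, h2, rfl⟩
    · intro T hT
      exact hmap T (mem_powerset.1 (mem_filter.1 (mem_filter.1 hT).1).1)
    · intro T hT
      exact hback T
    · intro T hT
      obtain ⟨h1, h2⟩ := mem_filter.1 hT
      rw [if_pos ⟨mem_powerset.1 (mem_filter.1 h1).1, h2⟩]

end Pool.Agent.Work.MP_918ecd_co.F
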